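import Mathlib

/-! The angle between the endpoints of a curve `z` avoiding the origin of an inner product space is
at most the integral of `|z'| / |z|`. -/

open Set Filter Topology InnerProductGeometry
open scoped RealInnerProductSpace

namespace Pool.Agent.H420R3

variable {H : Type*} [NormedAddCommGroup H] [InnerProductSpace ℝ H]

lemma angle_le_of_inner_pos {p q : H} (h : 0 < ⟪p, q⟫) :
    angle p q ≤ ‖p‖ * ‖q - p‖ / ⟪p, q⟫ := by
  have hp : p ≠ 0 := by rintro rfl; simp at h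
  have hq : q ≠ 0 := by rintro rfl; simp at h
  have hpn : 0 < ‖p‖ := norm_pos_iff.mpr hp
  have hqn : 0 < ‖q‖ := norm_pos_iff.mpr hq
  have hlt : angle p q < Real.pi / 2 := by
    unfold InnerProductGeometry.angle
    rw [Real.arccos_lt_pi_div_two]
    positivity
  have h1 := Real.le_tan (angle_nonneg p q) hlt
  refine h1.trans ?_
  rw [Real.tan_eq_sin_div_cos, cos_angle]
  have hs := sin_angle_mul_norm_mul_norm p q
  have hs' : Real.sin (angle p q) = √(⟪p, p⟫ * ⟪q, q⟫ - ⟪p, q⟫ * ⟪p, q⟫) / (‖p‖ * ‖q‖) := by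
    rw [eq_div_iff (by positivity)]; exact hs
  rw [hs', div_div_div_cancel_right₀ (by positivity)]
  gcongr
  rw [Real.sqrt_le_left (by positivity)]
  have e1 : ‖q - p‖ ^ 2 = ⟪q, q⟫ - 2 * ⟪p, q⟫ + ⟪p, p⟫ := by
    rw [← real_inner_self_eq_norm_sq, inner_sub_left, inner_sub_right, inner_sub_right,
      real_inner_comm p q]; ring
  rw [mul_pow, e1, ← real_inner_self_eq_norm_sq]
  nlinarith [sq_nonneg (⟪p, q⟫ - ⟪p, p⟫)]

/-- Angle comparison: a curve `z` in `H \ {0}` with `|z'| / |z| ≤ B'` satisfies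
`∠(z 0, z t) ≤ B t - B 0`. -/
theorem angle_le_of_deriv {z z' : ℝ → H} {B B' : ℝ → ℝ}
    (hz : ∀ t ∈ Icc (0 : ℝ) 1, HasDerivWithinAt z (z' t) (Icc 0 1) t)
    (hz0 : ∀ t ∈ Icc (0 : ℝ) 1, z t ≠ 0)
    (hB : ContinuousOn B (Icc 0 1))
    (hB' : ∀ t ∈ Ico (0 : ℝ) 1, HasDerivWithinAt B (B' t) (Ici t) t)
    (hle : ∀ t ∈ Ico (0 : ℝ) 1, ‖z' t‖ / ‖z t‖ ≤ B' t) :
    ∀ t ∈ Icc (0 : ℝ) 1, angle (z 0) (z t) ≤ B t - B 0 := by
  have h0 : (0 : ℝ) ∈ Icc (0 : ℝ) 1 := by simp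
  have hzc : ContinuousOn z (Icc 0 1) := fun t ht => (hz t ht).continuousWithinAt
  have hfc : ContinuousOn (fun t => angle (z 0) (z t)) (Icc 0 1) := by
    intro t ht
    have h1 := continuousAt_angle (x := (z 0, z t)) (hz0 0 h0) (hz0 t ht)
    exact h1.comp_continuousWithinAt (f := fun t => (z 0, z t))
      (continuousWithinAt_const.prodMk (hzc t ht))
  have hBc : ContinuousOn (fun t => B t - B 0) (Icc 0 1) := hB.sub continuousOn_const
  refine image_le_of_liminf_slope_right_le_deriv_boundary (f := fun t => angle (z 0) (z t))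
    (B := fun t => B t - B 0) (B' := B') hfc ?_ hBc (fun t ht => (hB' t ht).sub_const _) ?_
  · simp [angle_self (hz0 0 h0)]
  intro x hx r hr
  have hxI : x ∈ Icc (0 : ℝ) 1 := ⟨hx.1, hx.2.le⟩
  have hxz := hz0 x hxI
  have hnorm : 0 < ‖z x‖ := norm_pos_iff.mpr hxz
  -- right derivative of z
  have hd : HasDerivWithinAt z (z' x) (Ioi x) x := by
    have h1 : Icc (0 : ℝ) 1 ∈ 𝓝[>] x := by
      apply mem_of_superset (Ioc_mem_nhdsGT hx.2)
      intro y hy; exact ⟨hx.1.trans hy.1.le, hy.2⟩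
    exact (hz x hxI).mono_of_mem_nhdsWithin h1
  have hslope : Tendsto (slope z x) (𝓝[>] x) (𝓝 (z' x)) := by
    rw [hasDerivWithinAt_iff_tendsto_slope' (by simp)] at hd
    exact hd
  have hzt : Tendsto z (𝓝[>] x) (𝓝 (z x)) := hd.continuousWithinAt
  have hinner : Tendsto (fun y => ⟪z x, z y⟫) (𝓝[>] x) (𝓝 ⟪z x, z x⟫) :=
    tendsto_const_nhds.inner hzt
  have hxx : 0 < ⟪z x, z x⟫ := by
    rw [real_inner_self_eq_norm_sq]; positivity
  have hlim : Tendsto (fun y => ‖z x‖ * ‖slope z x y‖ / ⟪z x, z y⟫) (𝓝[>] x)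
      (𝓝 (‖z x‖ * ‖z' x‖ / ⟪z x, z x⟫)) :=
    (tendsto_const_nhds.mul hslope.norm).div hinner hxx.ne'
  have hval : ‖z x‖ * ‖z' x‖ / ⟪z x, z x⟫ = ‖z' x‖ / ‖z x‖ := by
    rw [real_inner_self_eq_norm_sq]; field_simp
  rw [hval] at hlim
  have hlt : ∀ᶠ y in 𝓝[>] x, ‖z x‖ * ‖slope z x y‖ / ⟪z x, z y⟫ < r :=
    hlim.eventually (gt_mem_nhds ((hle x hx).trans_lt hr))
  have hpos : ∀ᶠ y in 𝓝[>] x, 0 < ⟪z x, z y⟫ := hinner.eventually (lt_mem_nhds hxx)
  have hgt : ∀ᶠ y in 𝓝[>] x, x < y := eventually_mem_nhdsWithin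
  refine Eventually.frequently ?_
  filter_upwards [hlt, hpos, hgt] with y h1 h2 h3
  refine lt_of_le_of_lt ?_ h1
  have hyx : 0 < y - x := sub_pos.mpr h3
  rw [slope_def_field]
  have h4 : angle (z 0) (z y) - angle (z 0) (z x) ≤ ‖z x‖ * ‖z y - z x‖ / ⟪z x, z y⟫ := by
    have := angle_le_angle_add_angle (z 0) (z x) (z y)
    have := angle_le_of_inner_pos h2
    linarith
  have h5 : ‖slope z x y‖ = ‖z y - z x‖ / (y - x) := by
    rw [slope_def_module, norm_smul, norm_inv, Real.norm_of_nonneg hyx.le]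
    field_simp
  rw [h5, div_le_iff₀ hyx]
  refine h4.trans (le_of_eq ?_)
  field_simp

end Pool.Agent.H420R3
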