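import Pool.Agent.H420R3.Example5
import Pool.Agent.H420R3.Angle

/-! Displacement of the involution: pointwise inequalities and the upper bound. -/

open Set Filter Topology InnerProductGeometry
open scoped ContDiff RealInnerProductSpace ComplexConjugate

namespace Pool.Agent.H420R3

lemma inner_unit_smul {c : ℂ} (hc : ‖c‖ = 1) (x y : C2) : ⟪c • x, c • y⟫ = ⟪x, y⟫ := by
  rw [inner_C2, inner_C2]
  simp only [WithLp.smul_fst, WithLp.smul_snd, smul_eq_mul]
  rw [inner_mul_left_unit hc, inner_mul_left_unit hc]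

lemma angle_unit_smul {c : ℂ} (hc : ‖c‖ = 1) (x y : C2) : angle (c • x) (c • y) = angle x y := by
  unfold InnerProductGeometry.angle
  rw [inner_unit_smul hc, norm_smul, norm_smul, hc, one_mul, one_mul]

lemma inner_self_I_smul (x : C2) : ⟪x, Complex.I • x⟫ = 0 := by
  rw [real_inner_comm]; exact inner_I_smul_self x

/-- The pointwise inequality behind the lower bound for lengths. -/
lemma nrm_ge (x u : C2) (ζ : ℂ) (hx : x ≠ 0) :
    144 / 25 * (‖u - ((nrm x u ζ / 16 : ℝ) : ℂ) • (Complex.I • x)‖ / ‖x‖) + 128 / 25 * ‖ζ‖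
      ≤ nrm x u ζ := by
  have hn : 0 < ‖x‖ := norm_pos_iff.mpr hx
  set f := nrm x u ζ with hf
  set om := ⟪Complex.I • x, u⟫ / ‖x‖ ^ 2 with hom
  have hQ : 0 ≤ 144 * (‖u‖ ^ 2 / ‖x‖ ^ 2) + 64 * ‖ζ‖ ^ 2 + 81 * om ^ 2 := by positivity
  have h1 : (f + 9 * om) ^ 2 = 144 * (‖u‖ ^ 2 / ‖x‖ ^ 2) + 64 * ‖ζ‖ ^ 2 + 81 * om ^ 2 := by
    have : f + 9 * om = √(144 * (‖u‖ ^ 2 / ‖x‖ ^ 2) + 64 * ‖ζ‖ ^ 2 + 81 * om ^ 2) := by
      rw [hf, nrm]; ring
    rw [this, Real.sq_sqrt hQ]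
  have hf0 : 0 ≤ f := by
    have : |9 * om| ≤ √(144 * (‖u‖ ^ 2 / ‖x‖ ^ 2) + 64 * ‖ζ‖ ^ 2 + 81 * om ^ 2) := by
      apply Real.abs_le_sqrt
      have : 0 ≤ 144 * (‖u‖ ^ 2 / ‖x‖ ^ 2) + 64 * ‖ζ‖ ^ 2 := by positivity
      nlinarith
    have h2 := le_abs_self (9 * om)
    rw [hf, nrm]; linarith
  set A := ‖u - ((f / 16 : ℝ) : ℂ) • (Complex.I • x)‖ / ‖x‖ with hA
  have hA0 : 0 ≤ A := by positivity
  have h2 : A ^ 2 = ‖u‖ ^ 2 / ‖x‖ ^ 2 - f / 8 * om + f ^ 2 / 256 := by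
    rw [hA, div_pow, Complex.coe_smul, norm_sub_sq_real, real_inner_smul_right, norm_smul,
      norm_I_smul, real_inner_comm, hom]
    have : ‖f / 16‖ = f / 16 := Real.norm_of_nonneg (by positivity)
    rw [this]
    field_simp
    ring
  have h3 : (12 * A) ^ 2 + (8 * ‖ζ‖) ^ 2 = (5 / 4 * f) ^ 2 := by
    nlinarith
  have h4 : 3 * (12 * A) + 4 * (8 * ‖ζ‖) ≤ 5 * (5 / 4 * f) := by
    apply abs_le_of_sq_le_sq' _ (by positivity) |>.2
    nlinarith [sq_nonneg (4 * (12 * A) - 3 * (8 * ‖ζ‖))]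
  linarith

/-- The norm of the velocity of the rotating curve. -/
lemma nrm_rot {x : C2} (hx : x ≠ 0) :
    nrm x ((Complex.I * (Real.pi : ℂ)) • P1 x) (Complex.I * (Real.pi : ℂ)) = 8 * Real.pi := by
  have hn : 0 < ‖x‖ := norm_pos_iff.mpr hx
  have hpi := Real.pi_pos
  have e1 : ‖(Complex.I * (Real.pi : ℂ)) • P1 x‖ ^ 2 = Real.pi ^ 2 * ‖x.fst‖ ^ 2 := by
    rw [norm_sq_C2, P1_apply]
    simp [mul_pow]
  have e2 : ‖Complex.I * (Real.pi : ℂ)‖ ^ 2 = Real.pi ^ 2 := by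
    simp
  have e3 : ⟪Complex.I • x, (Complex.I * (Real.pi : ℂ)) • P1 x⟫ = Real.pi * ‖x.fst‖ ^ 2 := by
    rw [inner_C2, P1_apply]
    simp only [WithLp.smul_fst, WithLp.smul_snd, smul_eq_mul, WithLp.toLp_fst, WithLp.toLp_snd,
      mul_zero, inner_zero_right, add_zero]
    rw [← Complex.normSq_eq_norm_sq, Complex.inner, Complex.normSq_apply]
    simp [Complex.mul_re, Complex.mul_im]
    ring
  unfold nrm
  rw [e1, e2, e3]
  have e4 : 144 * (Real.pi ^ 2 * ‖x.fst‖ ^ 2 / ‖x‖ ^ 2) + 64 * Real.pi ^ 2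
      + 81 * (Real.pi * ‖x.fst‖ ^ 2 / ‖x‖ ^ 2) ^ 2
      = (Real.pi * (9 * (‖x.fst‖ ^ 2 / ‖x‖ ^ 2) + 8)) ^ 2 := by
    field_simp; ring
  rw [e4, Real.sqrt_sq (by positivity)]
  ring

/-- The rotating curve from `p` to `gam p`. -/
noncomputable def rotCurve (p : E6) (t : ℝ) : E6 :=
  (D (Complex.exp (t * (Complex.I * Real.pi))) p.1, Complex.exp (t * (Complex.I * Real.pi)) * p.2)

lemma norm_exp_rot (t : ℝ) : ‖Complex.exp (t * (Complex.I * Real.pi))‖ = 1 := by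
  have : (t : ℂ) * (Complex.I * Real.pi) = ((t * Real.pi : ℝ) : ℂ) * Complex.I := by
    push_cast; ring
  rw [this, Complex.norm_exp_ofReal_mul_I]

lemma hasDerivAt_exp_rot (t : ℝ) : HasDerivAt (fun t : ℝ => Complex.exp (t * (Complex.I * Real.pi)))
    ((Complex.I * Real.pi) * Complex.exp (t * (Complex.I * Real.pi))) t := by
  have h1 : HasDerivAt (fun t : ℝ => (t : ℂ) * (Complex.I * Real.pi)) (Complex.I * Real.pi) t := by
    simpa using (Complex.ofRealCLM.hasDerivAt (x := t)).mul_const (Complex.I * (Real.pi : ℂ))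
  have := h1.cexp
  refine this.congr_deriv ?_
  ring

lemma rotCurve_mem {p : E6} (hp : p ∈ dom) (t : ℝ) : rotCurve p t ∈ dom :=
  ⟨D_ne_zero (Complex.exp_ne_zero _) hp.1, mul_ne_zero (Complex.exp_ne_zero _) hp.2⟩

lemma contDiff_rotCurve (p : E6) : ContDiff ℝ ∞ (rotCurve p) := by
  have h1 : ContDiff ℝ ∞ (fun t : ℝ => Complex.exp (t * (Complex.I * Real.pi))) :=
    (Complex.ofRealCLM.contDiff.mul contDiff_const).cexp
  have h2 : ContDiff ℝ ∞ (fun t : ℝ =>
      (p.1 + (Complex.exp (t * (Complex.I * Real.pi)) - 1) • P1 p.1,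
        Complex.exp (t * (Complex.I * Real.pi)) * p.2)) :=
    (contDiff_const.add ((h1.sub contDiff_const).smul contDiff_const)).prodMk
      (h1.mul contDiff_const)
  have h3 : rotCurve p = fun t : ℝ =>
      (p.1 + (Complex.exp (t * (Complex.I * Real.pi)) - 1) • P1 p.1,
        Complex.exp (t * (Complex.I * Real.pi)) * p.2) := by
    funext t; rw [rotCurve, D_eq]
  rw [h3]; exact h2

lemma hasDerivAt_rotCurve (p : E6) (t : ℝ) : HasDerivAt (rotCurve p)
    (D (Complex.exp (t * (Complex.I * Real.pi))) ((Complex.I * (Real.pi : ℂ)) • P1 p.1),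
      (Complex.I * Real.pi) * Complex.exp (t * (Complex.I * Real.pi)) * p.2) t := by
  have h1 := hasDerivAt_exp_rot t
  have h2 : HasDerivAt (fun t : ℝ =>
      p.1 + (Complex.exp (t * (Complex.I * Real.pi)) - 1) • P1 p.1)
      (((Complex.I * Real.pi) * Complex.exp (t * (Complex.I * Real.pi))) • P1 p.1) t :=
    ((h1.sub_const 1).smul_const (P1 p.1)).const_add p.1
  have h3 := h2.prodMk (h1.mul_const p.2)
  have h4 : rotCurve p = fun t : ℝ =>
      (p.1 + (Complex.exp (t * (Complex.I * Real.pi)) - 1) • P1 p.1,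
        Complex.exp (t * (Complex.I * Real.pi)) * p.2) := by
    funext t; rw [rotCurve, D_eq]
  rw [h4]
  refine h3.congr_deriv (Prod.ext ?_ rfl)
  apply C2_ext
  · simp [P1_apply]; ring
  · simp [P1_apply]

lemma FM_rotCurve {p : E6} (hp : p ∈ dom) (t : ℝ) : FM (rotCurve p t)
    (D (Complex.exp (t * (Complex.I * Real.pi))) ((Complex.I * (Real.pi : ℂ)) • P1 p.1),
      (Complex.I * Real.pi) * Complex.exp (t * (Complex.I * Real.pi)) * p.2) = 8 * Real.pi := by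
  simp only [FM, rotCurve]
  rw [nrm_D (norm_exp_rot t)]
  have h : Complex.I * ↑Real.pi * Complex.exp (↑t * (Complex.I * ↑Real.pi)) * p.2 /
      (Complex.exp (↑t * (Complex.I * ↑Real.pi)) * p.2) = Complex.I * Real.pi := by
    have := Complex.exp_ne_zero (t * (Complex.I * Real.pi))
    have := hp.2
    field_simp
  rw [h, nrm_rot hp.1]

theorem smoothArc_gam {p : E6} (hp : p ∈ dom) : SmoothArc dom FM p (gam p) (8 * Real.pi) := by
  refine ⟨rotCurve p, (contDiff_rotCurve p).contDiffOn, fun t _ => rotCurve_mem hp t, ?_, ?_, ?_⟩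
  · simp [rotCurve, D_one]
  · have h : Complex.exp (((1 : ℝ) : ℂ) * (Complex.I * Real.pi)) = -1 := by
      rw [Complex.ofReal_one, one_mul, mul_comm, Complex.exp_pi_mul_I]
    rw [rotCurve, h, gam, neg_one_mul]
  · have h : ∀ t ∈ Icc (0 : ℝ) 1,
        FM (rotCurve p t) (derivWithin (rotCurve p) (Icc 0 1) t) = 8 * Real.pi := by
      intro t ht
      rw [(hasDerivAt_rotCurve p t).hasDerivWithinAt.derivWithin
        (uniqueDiffOn_Icc zero_lt_one t ht)]
      exact FM_rotCurve hp t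
    rw [intervalIntegral.integral_congr (g := fun _ => 8 * Real.pi) (by
      intro t ht; rw [uIcc_of_le zero_le_one] at ht; exact h t ht)]
    simp

end Pool.Agent.H420R3
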