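import Pool.Agent.H420R3.Disp2a

/-! Displacement of the involution: the lower bound. -/

open Set Filter Topology InnerProductGeometry MeasureTheory
open scoped ContDiff RealInnerProductSpace ComplexConjugate

namespace Pool.Agent.H420R3

lemma continuousOn_F_curve {F : E6 → E6 → ℝ} {U : Set E6}
    (hF : ContinuousOn (fun p : E6 × E6 => F p.1 p.2) (U ×ˢ univ))
    {c c' : ℝ → E6} (hcc : ContinuousOn c (Icc 0 1))
    (hc'c : ContinuousOn c' (Icc 0 1)) (hU : ∀ t ∈ Icc (0 : ℝ) 1, c t ∈ U) :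
    ContinuousOn (fun t => F (c t) (c' t)) (Icc 0 1) := by
  have h1 : ContinuousOn (fun t => (c t, c' t)) (Icc 0 1) := hcc.prodMk hc'c
  exact ContinuousOn.comp (g := fun p : E6 × E6 => F p.1 p.2) (f := fun t => (c t, c' t))
    hF h1 fun t ht => ⟨hU t ht, mem_univ _⟩

/-- The key estimate for smooth arcs. -/
lemma smoothArc_bound {p q : E6} {ℓ : ℝ} (h : SmoothArc dom FM p q ℓ) :
    0 ≤ ℓ ∧ 144 / 25 * angle p.1 (rt ℓ • q.1) + 128 / 25 * angle p.2 q.2 ≤ ℓ := by
  obtain ⟨c, hc, hU, hc0, hc1, hℓ⟩ := h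
  have hFin : IsFinsler dom FM := FM_isRanders.isFinsler isOpen_dom isConnected_dom
  have hu := uniqueDiffOn_Icc (zero_lt_one (α := ℝ))
  have hcd : ∀ t ∈ Icc (0 : ℝ) 1, HasDerivWithinAt c (derivWithin c (Icc 0 1) t) (Icc 0 1) t :=
    fun t ht => ((hc.differentiableOn (by simp)) t ht).hasDerivWithinAt
  have hc'c : ContinuousOn (derivWithin c (Icc 0 1)) (Icc 0 1) :=
    hc.continuousOn_derivWithin hu (by simp)
  have hcc : ContinuousOn c (Icc 0 1) := hc.continuousOn
  have hfc : ContinuousOn (fun t => FM (c t) (derivWithin c (Icc 0 1) t)) (Icc 0 1) :=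
    continuousOn_F_curve hFin.continuousOn hcc hc'c hU
  have hx : ∀ t ∈ Icc (0 : ℝ) 1, HasDerivWithinAt (fun t => (c t).1)
      (derivWithin c (Icc 0 1) t).1 (Icc 0 1) t :=
    fun t ht => ((ContinuousLinearMap.fst ℝ C2 ℂ).hasFDerivAt.comp_hasDerivWithinAt t (hcd t ht))
  have hy : ∀ t ∈ Icc (0 : ℝ) 1, HasDerivWithinAt (fun t => (c t).2)
      (derivWithin c (Icc 0 1) t).2 (Icc 0 1) t :=
    fun t ht => ((ContinuousLinearMap.snd ℝ C2 ℂ).hasFDerivAt.comp_hasDerivWithinAt t (hcd t ht))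
  have hb := curve_bound hx hy (continuous_fst.comp_continuousOn hc'c)
    (continuous_snd.comp_continuousOn hc'c) (fun t ht => (hU t ht).1) (fun t ht => (hU t ht).2) hfc
  refine ⟨?_, ?_⟩
  · rw [← hℓ]
    exact intervalIntegral.integral_nonneg zero_le_one fun t ht => hFin.nonneg _ (hU t ht) _
  · have e : (∫ t in (0 : ℝ)..1, nrm (c t).1 (derivWithin c (Icc 0 1) t).1
        ((derivWithin c (Icc 0 1) t).2 / (c t).2)) = ℓ := hℓ
    rw [e, hc0, hc1] at hb
    exact hb

/-- The key estimate for piecewise smooth arcs. -/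
lemma piecewiseArc_bound {p q : E6} {ℓ : ℝ} (h : PiecewiseArc dom FM p q ℓ) :
    0 ≤ ℓ ∧ 144 / 25 * angle p.1 (rt ℓ • q.1) + 128 / 25 * angle p.2 q.2 ≤ ℓ := by
  induction h with
  | arc h => exact smoothArc_bound h
  | @concat p q s ℓ ℓ' _ _ ih1 ih2 =>
    refine ⟨add_nonneg ih1.1 ih2.1, ?_⟩
    have h1 := angle_le_angle_add_angle p.1 (rt ℓ • q.1) (rt (ℓ + ℓ') • s.1)
    have h2 := angle_le_angle_add_angle p.2 q.2 s.2
    have h3 : angle (rt ℓ • q.1) (rt (ℓ + ℓ') • s.1) = angle q.1 (rt ℓ' • s.1) := by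
      rw [rt_add, mul_smul, angle_unit_smul (norm_rt ℓ)]
    rw [h3] at h1
    linarith [ih1.2, ih2.2]

lemma angle_rt {z : C2} (hz : z ≠ 0) {s : ℝ} (h0 : 0 ≤ s) (h1 : s ≤ 16 * Real.pi) :
    angle z (rt s • z) = s / 16 := by
  have hn : 0 < ‖z‖ := norm_pos_iff.mpr hz
  have h2 : ⟪z, rt s • z⟫ = Real.cos (s / 16) * ‖z‖ ^ 2 := by
    have h3 : rt s • z = (Real.cos (s / 16)) • z - (Real.sin (s / 16)) • (Complex.I • z) := by
      rw [rt, Complex.exp_mul_I, ← Complex.ofReal_cos, ← Complex.ofReal_sin, Real.cos_neg,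
        Real.sin_neg, add_smul, mul_smul]
      rw [Complex.coe_smul, Complex.coe_smul, neg_smul, sub_eq_add_neg]
    rw [h3, inner_sub_right, real_inner_smul_right, real_inner_smul_right, inner_self_I_smul,
      real_inner_self_eq_norm_sq]
    ring
  unfold InnerProductGeometry.angle
  rw [h2, norm_smul, norm_rt, one_mul]
  have h4 : Real.cos (s / 16) * ‖z‖ ^ 2 / (‖z‖ * ‖z‖) = Real.cos (s / 16) := by
    field_simp
  rw [h4, Real.arccos_cos (by positivity) (by linarith)]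

/-- Every piecewise smooth curve from `p` to `gam p` has length at least `8π`. -/
theorem arc_gam_ge {p : E6} (hp : p ∈ dom) {ℓ : ℝ} (h : PiecewiseArc dom FM p (gam p) ℓ) :
    8 * Real.pi ≤ ℓ := by
  obtain ⟨hℓ0, hb⟩ := piecewiseArc_bound h
  by_contra hlt
  rw [not_le] at hlt
  have hpi := Real.pi_pos
  set w : C2 := D (-1) p.1 with hw
  have hw0 : w ≠ 0 := D_ne_zero (by norm_num) hp.1
  have e1 : angle p.2 (gam p).2 = Real.pi := angle_self_neg_of_nonzero hp.2
  have e2 : (gam p).1 = w := rfl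
  rw [e1, e2] at hb
  -- the right angle
  have h8 : rt (8 * Real.pi) = -Complex.I := by
    rw [rt]
    have : ((-(8 * Real.pi / 16) : ℝ) : ℂ) * Complex.I = -((Real.pi : ℂ) / 2 * Complex.I) := by
      push_cast; ring
    rw [this, Complex.exp_neg, Complex.exp_pi_div_two_mul_I, Complex.inv_I]
  have h3 : angle p.1 (rt (8 * Real.pi) • w) = Real.pi / 2 := by
    rw [← inner_eq_zero_iff_angle_eq_pi_div_two, h8, hw, inner_C2]
    simp only [WithLp.smul_fst, WithLp.smul_snd, D_fst, D_snd, smul_eq_mul, Complex.inner,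
      Complex.mul_re, Complex.mul_im, Complex.neg_re, Complex.neg_im, Complex.I_re, Complex.I_im,
      Complex.conj_re, Complex.conj_im, Complex.one_re, Complex.one_im]
    ring
  have h4 := angle_le_angle_add_angle p.1 (rt ℓ • w) (rt (8 * Real.pi) • w)
  have h5 : angle (rt ℓ • w) (rt (8 * Real.pi) • w) = (8 * Real.pi - ℓ) / 16 := by
    have : rt (8 * Real.pi) = rt ℓ * rt (8 * Real.pi - ℓ) := by
      rw [← rt_add]; congr 1; ring
    rw [this, mul_smul, angle_unit_smul (norm_rt ℓ),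
      angle_rt hw0 (by linarith) (by linarith)]
  rw [h3, h5] at h4
  linarith

theorem dist_gam {p : E6} (hp : p ∈ dom) : finslerDist dom FM p (gam p) = 8 * Real.pi := by
  apply IsLeast.csInf_eq
  exact ⟨PiecewiseArc.arc (smoothArc_gam hp), fun ℓ h => arc_gam_ge hp h⟩

theorem dist_id {p : E6} (hp : p ∈ dom) : finslerDist dom FM p (id p) = 0 := by
  apply IsLeast.csInf_eq
  refine ⟨PiecewiseArc.arc ⟨fun _ => p, contDiffOn_const, fun _ _ => hp, rfl, rfl, ?_⟩,
    fun ℓ h => (piecewiseArc_bound h).1⟩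
  have : FM p 0 = 0 := by simp [FM, nrm]
  simp [this]

end Pool.Agent.H420R3
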