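import Pool.Agent.H420R3.Disp1

/-! Displacement of the involution: the lower bound. -/

open Set Filter Topology InnerProductGeometry MeasureTheory
open scoped ContDiff RealInnerProductSpace ComplexConjugate

namespace Pool.Agent.H420R3

/-- A continuous function on `[0,1]` has a primitive on the line. -/
lemma exists_primitive {g : ℝ → ℝ} (hg : ContinuousOn g (Icc 0 1)) :
    ∃ (B g' : ℝ → ℝ), Continuous g' ∧ (∀ t ∈ Icc (0 : ℝ) 1, g' t = g t) ∧
      (∀ t, HasDerivAt B (g' t) t) ∧ B 0 = 0 ∧ B 1 = ∫ t in (0 : ℝ)..1, g t := by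
  set g' : ℝ → ℝ := IccExtend zero_le_one ((Icc (0 : ℝ) 1).domRestrict g) with hg'
  have hc : Continuous g' := hg.domRestrict.Icc_extend'
  have heq : ∀ t ∈ Icc (0 : ℝ) 1, g' t = g t := fun t ht => by
    rw [hg', IccExtend_of_mem zero_le_one _ ht]; rfl
  refine ⟨fun t => ∫ s in (0 : ℝ)..t, g' s, g', hc, heq, ?_, by simp, ?_⟩
  · intro t
    exact intervalIntegral.integral_hasDerivAt_right (hc.intervalIntegrable _ _)
      (hc.stronglyMeasurableAtFilter _ _) hc.continuousAt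
  · apply intervalIntegral.integral_congr
    intro t ht
    rw [uIcc_of_le zero_le_one] at ht
    exact heq t ht

/-- Angle comparison in integral form. -/
theorem angle_le_integral {G : Type*} [NormedAddCommGroup G] [InnerProductSpace ℝ G]
    {z z' : ℝ → G} (hz : ∀ t ∈ Icc (0 : ℝ) 1, HasDerivWithinAt z (z' t) (Icc 0 1) t)
    (hz0 : ∀ t ∈ Icc (0 : ℝ) 1, z t ≠ 0) (hz' : ContinuousOn z' (Icc 0 1)) :
    angle (z 0) (z 1) ≤ ∫ t in (0 : ℝ)..1, ‖z' t‖ / ‖z t‖ := by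
  have hzc : ContinuousOn z (Icc 0 1) := fun t ht => (hz t ht).continuousWithinAt
  have hg : ContinuousOn (fun t => ‖z' t‖ / ‖z t‖) (Icc 0 1) :=
    hz'.norm.div hzc.norm fun t ht => (norm_pos_iff.mpr (hz0 t ht)).ne'
  obtain ⟨B, g', hc, heq, hB, hB0, hB1⟩ := exists_primitive hg
  have h := angle_le_of_deriv hz hz0 (B := B) (B' := g')
    (fun t _ => (hB t).continuousAt.continuousWithinAt) (fun t _ => (hB t).hasDerivWithinAt)
    (fun t ht => (heq t ⟨ht.1, ht.2.le⟩).ge) 1 (by simp)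
  rw [hB0, hB1, sub_zero] at h
  exact h

/-- The rotation by the angle `-s/16`. -/
noncomputable def rt (s : ℝ) : ℂ := Complex.exp ((-(s / 16) : ℝ) * Complex.I)

lemma norm_rt (s : ℝ) : ‖rt s‖ = 1 := Complex.norm_exp_ofReal_mul_I _

lemma rt_zero : rt 0 = 1 := by simp [rt]

lemma rt_add (s t : ℝ) : rt (s + t) = rt s * rt t := by
  rw [rt, rt, rt, ← Complex.exp_add]; congr 1; push_cast; ring

lemma rt_ne_zero (s : ℝ) : rt s ≠ 0 := Complex.exp_ne_zero _

lemma hasDerivAt_rt {τ : ℝ → ℝ} {f : ℝ} {t : ℝ} (h : HasDerivAt τ f t) :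
    HasDerivAt (fun t => rt (τ t)) (-(((f / 16 : ℝ) : ℂ) * Complex.I) * rt (τ t)) t := by
  have h1 : HasDerivAt (fun t : ℝ => ((-(τ t / 16) : ℝ) : ℂ)) ((-(f / 16) : ℝ) : ℂ) t :=
    ((h.div_const 16).neg).ofReal_comp
  have h2 := (h1.mul_const Complex.I).cexp
  refine h2.congr_deriv ?_
  simp only [rt]
  push_cast; ring

lemma hasDerivWithinAt_rot {x : ℝ → C2} {x' : C2} {τ : ℝ → ℝ} {f : ℝ} {t : ℝ} {s : Set ℝ}
    (hx : HasDerivWithinAt x x' s t) (h : HasDerivAt τ f t) :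
    HasDerivWithinAt (fun t => rt (τ t) • x t)
      (rt (τ t) • (x' - ((f / 16 : ℝ) : ℂ) • (Complex.I • x t))) s t := by
  have h1 := (hasDerivAt_rt h).hasDerivWithinAt.smul hx (s := s)
  refine h1.congr_deriv ?_
  rw [smul_sub, smul_smul, smul_smul, sub_eq_add_neg, ← neg_smul]
  congr 2
  ring

/-- The key estimate, for a curve in coordinates. -/
lemma curve_bound {x x' : ℝ → C2} {y y' : ℝ → ℂ}
    (hx : ∀ t ∈ Icc (0 : ℝ) 1, HasDerivWithinAt x (x' t) (Icc 0 1) t)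
    (hy : ∀ t ∈ Icc (0 : ℝ) 1, HasDerivWithinAt y (y' t) (Icc 0 1) t)
    (hx' : ContinuousOn x' (Icc 0 1)) (hy' : ContinuousOn y' (Icc 0 1))
    (hx0 : ∀ t ∈ Icc (0 : ℝ) 1, x t ≠ 0) (hy0 : ∀ t ∈ Icc (0 : ℝ) 1, y t ≠ 0)
    (hfc : ContinuousOn (fun t => nrm (x t) (x' t) (y' t / y t)) (Icc 0 1)) :
    144 / 25 * angle (x 0) (rt (∫ t in (0 : ℝ)..1, nrm (x t) (x' t) (y' t / y t)) • x 1)
      + 128 / 25 * angle (y 0) (y 1) ≤ ∫ t in (0 : ℝ)..1, nrm (x t) (x' t) (y' t / y t) := by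
  obtain ⟨τ, f', hf'c, hf', hτ, hτ0, hτ1⟩ := exists_primitive hfc
  have hzd : ∀ t ∈ Icc (0 : ℝ) 1, HasDerivWithinAt (fun t => rt (τ t) • x t)
      (rt (τ t) • (x' t - ((f' t / 16 : ℝ) : ℂ) • (Complex.I • x t))) (Icc 0 1) t :=
    fun t ht => hasDerivWithinAt_rot (hx t ht) (hτ t)
  have hz0 : ∀ t ∈ Icc (0 : ℝ) 1, rt (τ t) • x t ≠ 0 := fun t ht =>
    smul_ne_zero (rt_ne_zero _) (hx0 t ht)
  have hrtc : Continuous (fun t => rt (τ t)) :=
    continuous_iff_continuousAt.mpr fun t => (hasDerivAt_rt (hτ t)).continuousAt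
  have hf'C : Continuous (fun t => ((f' t / 16 : ℝ) : ℂ)) :=
    Complex.continuous_ofReal.comp (hf'c.div_const 16)
  have hxc : ContinuousOn x (Icc 0 1) := fun t ht => (hx t ht).continuousWithinAt
  have hyc : ContinuousOn y (Icc 0 1) := fun t ht => (hy t ht).continuousWithinAt
  have hz'c : ContinuousOn (fun t => rt (τ t) • (x' t - ((f' t / 16 : ℝ) : ℂ) •
      (Complex.I • x t))) (Icc 0 1) :=
    hrtc.continuousOn.smul (hx'.sub (hf'C.continuousOn.smul (hxc.const_smul Complex.I)))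
  have hA := angle_le_integral hzd hz0 hz'c
  have hZ := angle_le_integral hy hy0 hy'
  have hAc : ContinuousOn (fun t => ‖rt (τ t) • (x' t - ((f' t / 16 : ℝ) : ℂ) •
      (Complex.I • x t))‖ / ‖rt (τ t) • x t‖) (Icc 0 1) :=
    hz'c.norm.div (hrtc.continuousOn.smul hxc).norm
      fun t ht => (norm_pos_iff.mpr (hz0 t ht)).ne'
  have hZc : ContinuousOn (fun t => ‖y' t‖ / ‖y t‖) (Icc 0 1) :=
    hy'.norm.div hyc.norm fun t ht => (norm_pos_iff.mpr (hy0 t ht)).ne'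
  have hAi := (hAc.mono (uIcc_of_le (zero_le_one (α := ℝ))).subset).intervalIntegrable
    (μ := volume)
  have hZi := (hZc.mono (uIcc_of_le (zero_le_one (α := ℝ))).subset).intervalIntegrable
    (μ := volume)
  have hfi := (hfc.mono (uIcc_of_le (zero_le_one (α := ℝ))).subset).intervalIntegrable
    (μ := volume)
  have hpt : ∀ t ∈ Icc (0 : ℝ) 1, 144 / 25 * (‖rt (τ t) • (x' t - ((f' t / 16 : ℝ) : ℂ) •
      (Complex.I • x t))‖ / ‖rt (τ t) • x t‖) +
      128 / 25 * (‖y' t‖ / ‖y t‖) ≤ nrm (x t) (x' t) (y' t / y t) := by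
    intro t ht
    have h1 := nrm_ge (x t) (x' t) (y' t / y t) (hx0 t ht)
    rw [norm_smul, norm_smul, norm_rt, one_mul, one_mul, hf' t ht, ← norm_div]
    exact h1
  have hint := intervalIntegral.integral_mono_on zero_le_one
      ((hAi.const_mul (144 / 25)).add (hZi.const_mul (128 / 25))) hfi hpt
  rw [intervalIntegral.integral_add (hAi.const_mul _) (hZi.const_mul _),
    intervalIntegral.integral_const_mul, intervalIntegral.integral_const_mul] at hint
  simp only [hτ0, hτ1, rt_zero, one_smul] at hA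
  linarith


end Pool.Agent.H420R3
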