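import Pool.Agent.H420R3.Randers

/-! The example: a Randers metric on `(ℂ² \ 0) × (ℂ \ 0)` and its quotient. -/

open Set Filter Topology
open scoped ContDiff RealInnerProductSpace

namespace Pool.Agent.H420R3

/-- `ℂ²` with the Euclidean norm. -/
abbrev C2 : Type := WithLp 2 (ℂ × ℂ)

/-- `ℂ² × ℂ`. -/
abbrev E6 : Type := C2 × ℂ

/-- The real inner product as a continuous bilinear map. -/
noncomputable def ip (G : Type) [NormedAddCommGroup G] [InnerProductSpace ℝ G] :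
    G →L[ℝ] G →L[ℝ] ℝ :=
  (isBoundedBilinearMap_inner (𝕜 := ℝ) (E := G)).toContinuousLinearMap

lemma ip_apply (G : Type) [NormedAddCommGroup G] [InnerProductSpace ℝ G] (u v : G) :
    ip G u v = ⟪u, v⟫ := rfl

/-- The Randers norm at `x` of the vector with components `u ∈ ℂ²` and `ζ ∈ ℂ` (logarithmic
derivative). -/
noncomputable def nrm (x u : C2) (ζ : ℂ) : ℝ :=
  √(144 * (‖u‖ ^ 2 / ‖x‖ ^ 2) + 64 * ‖ζ‖ ^ 2 + 81 * (⟪Complex.I • x, u⟫ / ‖x‖ ^ 2) ^ 2)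
    - 9 * (⟪Complex.I • x, u⟫ / ‖x‖ ^ 2)

/-- The domain `(ℂ² \ 0) × (ℂ \ 0)`. -/
def dom : Set E6 := {p | p.1 ≠ 0 ∧ p.2 ≠ 0}

lemma norm_I_smul (x : C2) : ‖Complex.I • x‖ = ‖x‖ := by simp [norm_smul]

lemma inner_I_smul_self (x : C2) : ⟪Complex.I • x, x⟫ = 0 := by
  simp [WithLp.prod_inner_apply, Complex.inner]
  ring

theorem isRanders_of {U : Set E6} {A : E6 → E6 →L[ℝ] C2} {Z : E6 → E6 →L[ℝ] ℂ}
    {F : E6 → E6 → ℝ} (hU : ∀ p ∈ U, p.1 ≠ 0)
    (hA : ∀ v, ContDiffOn ℝ ∞ (fun p => A p v) U) (hZ : ∀ v, ContDiffOn ℝ ∞ (fun p => Z p v) U)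
    (hinj : ∀ p ∈ U, ∀ v, A p v = 0 → Z p v = 0 → v = 0)
    (hF : ∀ p ∈ U, ∀ v, F p v = nrm p.1 (A p v) (Z p v)) : IsRanders U F := by
  have hI : ContDiffOn ℝ ∞ (fun p : E6 => Complex.I • p.1) U :=
    (contDiff_fst.const_smul Complex.I).contDiffOn
  have hn : ContDiffOn ℝ ∞ (fun p : E6 => ‖p.1‖ ^ 2) U :=
    ((contDiff_norm_sq ℝ).comp contDiff_fst).contDiffOn
  have hn0 : ∀ p ∈ U, ‖p.1‖ ^ 2 ≠ 0 := fun p hp => by
    have := norm_pos_iff.mpr (hU p hp); positivity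
  set om : E6 → E6 →L[ℝ] ℝ := fun p => (‖p.1‖ ^ 2)⁻¹ • (innerSL ℝ (Complex.I • p.1)).comp (A p)
    with hom
  have homa : ∀ p v, om p v = (‖p.1‖ ^ 2)⁻¹ * ⟪Complex.I • p.1, A p v⟫ := by
    intro p v; simp [hom]
  have homs : ∀ v, ContDiffOn ℝ ∞ (fun p => om p v) U := by
    intro v
    simp only [homa]
    exact (hn.inv hn0).mul (hI.inner ℝ (hA v))
  set a : E6 → E6 →L[ℝ] E6 →L[ℝ] ℝ := fun p =>
    (144 * (‖p.1‖ ^ 2)⁻¹) • (ip C2).bilinearComp (A p) (A p)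
      + (64 : ℝ) • (ip ℂ).bilinearComp (Z p) (Z p)
      + (81 : ℝ) • (om p).smulRight (om p) with ha
  have haa : ∀ p v w, a p v w = 144 * (‖p.1‖ ^ 2)⁻¹ * ⟪A p v, A p w⟫ + 64 * ⟪Z p v, Z p w⟫
      + 81 * (om p v * om p w) := by
    intro p v w
    simp only [ha, add_apply, smul_apply, ContinuousLinearMap.bilinearComp_apply,
      ContinuousLinearMap.smulRight_apply, ip_apply, smul_eq_mul]
  have hpos : ∀ p ∈ U, ∀ v, v ≠ 0 → (9 * om p v) ^ 2 < a p v v := by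
    intro p hp v hv
    rw [haa, real_inner_self_eq_norm_sq, real_inner_self_eq_norm_sq]
    have h1 : 0 < ‖p.1‖ ^ 2 := lt_of_le_of_ne (by positivity) (hn0 p hp).symm
    have h2 : 0 < ‖A p v‖ ^ 2 ∨ 0 < ‖Z p v‖ ^ 2 := by
      by_contra hcon
      rw [not_or] at hcon
      have e1 : A p v = 0 := by
        by_contra h; exact hcon.1 (by have := norm_pos_iff.mpr h; positivity)
      have e2 : Z p v = 0 := by
        by_contra h; exact hcon.2 (by have := norm_pos_iff.mpr h; positivity)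
      exact hv (hinj p hp v e1 e2)
    have h3 : 0 < 144 * (‖p.1‖ ^ 2)⁻¹ * ‖A p v‖ ^ 2 + 64 * ‖Z p v‖ ^ 2 := by
      rcases h2 with h | h
      · have : 0 < 144 * (‖p.1‖ ^ 2)⁻¹ * ‖A p v‖ ^ 2 := by positivity
        positivity
      · have : 0 < 64 * ‖Z p v‖ ^ 2 := by positivity
        positivity
    have h4 : 0 ≤ om p v * om p v := mul_self_nonneg _
    have h5 : (9 * om p v) ^ 2 = 81 * (om p v * om p v) := by ring
    rw [h5]; linarith
  refine ⟨a, fun p => (-9 : ℝ) • om p, ?_, ?_, ?_, ?_, ?_, ?_⟩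
  · rw [contDiffOn_clm_apply]
    intro v
    rw [contDiffOn_clm_apply]
    intro w
    simp only [haa]
    exact (((contDiffOn_const.mul (hn.inv hn0)).mul ((hA v).inner ℝ (hA w))).add
      (contDiffOn_const.mul ((hZ v).inner ℝ (hZ w)))).add
      (contDiffOn_const.mul ((homs v).mul (homs w)))
  · rw [contDiffOn_clm_apply]
    intro v
    simp only [smul_apply]
    exact (homs v).const_smul (-9 : ℝ)
  · intro p _ v w
    rw [haa, haa, real_inner_comm, real_inner_comm (Z p w)]; ring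
  · intro p hp v hv
    exact lt_of_le_of_lt (sq_nonneg _) (hpos p hp v hv)
  · intro p hp v hv
    have := hpos p hp v hv
    apply Real.lt_sqrt_of_sq_lt
    simp only [smul_apply, smul_eq_mul, sq_abs]
    linarith
  · intro p hp v
    rw [hF p hp v, haa, real_inner_self_eq_norm_sq, real_inner_self_eq_norm_sq]
    simp only [smul_apply, smul_eq_mul, homa, nrm]
    have e : 144 * (‖A p v‖ ^ 2 / ‖p.1‖ ^ 2) + 64 * ‖Z p v‖ ^ 2
        + 81 * (⟪Complex.I • p.1, A p v⟫ / ‖p.1‖ ^ 2) ^ 2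
        = 144 * (‖p.1‖ ^ 2)⁻¹ * ‖A p v‖ ^ 2 + 64 * ‖Z p v‖ ^ 2 + 81 *
          ((‖p.1‖ ^ 2)⁻¹ * ⟪Complex.I • p.1, A p v⟫ * ((‖p.1‖ ^ 2)⁻¹ *
            ⟪Complex.I • p.1, A p v⟫)) := by ring
    rw [e]; ring

end Pool.Agent.H420R3
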