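import Pool.Agent.H420R3.Example

/-! The example, continued: definitions of the metrics, the involution and the covering map. -/

open Set Filter Topology
open scoped ContDiff RealInnerProductSpace ComplexConjugate

namespace Pool.Agent.H420R3

/-- The projection `(a, b) ↦ (a, 0)` of `ℂ²`. -/
noncomputable def P1 : C2 →L[ℂ] C2 :=
  ((WithLp.prodContinuousLinearEquiv 2 ℂ ℂ ℂ).symm : (ℂ × ℂ) →L[ℂ] C2).comp
    (((ContinuousLinearMap.inl ℂ ℂ ℂ).comp (ContinuousLinearMap.fst ℂ ℂ ℂ)).comp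
      ((WithLp.prodContinuousLinearEquiv 2 ℂ ℂ ℂ) : C2 →L[ℂ] (ℂ × ℂ)))

lemma P1_apply (x : C2) : P1 x = WithLp.toLp 2 (x.fst, 0) := by
  simp [P1]

/-- The map `(a, b) ↦ (c a, b)` of `ℂ²`. -/
noncomputable def D (c : ℂ) (x : C2) : C2 := WithLp.toLp 2 (c * x.fst, x.snd)

@[simp] lemma D_fst (c : ℂ) (x : C2) : (D c x).fst = c * x.fst := rfl
@[simp] lemma D_snd (c : ℂ) (x : C2) : (D c x).snd = x.snd := rfl

lemma C2_ext {x y : C2} (h1 : x.fst = y.fst) (h2 : x.snd = y.snd) : x = y := by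
  apply (WithLp.ofLp_injective 2)
  exact Prod.ext h1 h2

lemma D_eq (c : ℂ) (x : C2) : D c x = x + (c - 1) • P1 x := by
  apply C2_ext
  · simp [P1_apply]; ring
  · simp [P1_apply]

lemma D_D (c d : ℂ) (x : C2) : D c (D d x) = D (c * d) x := by
  apply C2_ext <;> simp [mul_assoc]

lemma D_one (x : C2) : D 1 x = x := by
  apply C2_ext <;> simp

lemma D_add (c : ℂ) (x y : C2) : D c (x + y) = D c x + D c y := by
  apply C2_ext <;> simp [mul_add]

lemma D_smul (c r : ℂ) (x : C2) : D c (r • x) = r • D c x := by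
  apply C2_ext
  · simp; ring
  · simp

lemma norm_sq_C2 (x : C2) : ‖x‖ ^ 2 = ‖x.fst‖ ^ 2 + ‖x.snd‖ ^ 2 := WithLp.prod_norm_sq_eq_of_L2 x

lemma inner_C2 (x y : C2) : ⟪x, y⟫ = ⟪x.fst, y.fst⟫ + ⟪x.snd, y.snd⟫ :=
  WithLp.prod_inner_apply x y

lemma inner_mul_left_unit {c : ℂ} (hc : ‖c‖ = 1) (z w : ℂ) : ⟪c * z, c * w⟫ = ⟪z, w⟫ := by
  have h : Complex.normSq c = 1 := by rw [Complex.normSq_eq_norm_sq, hc]; norm_num
  rw [Complex.inner, Complex.inner, map_mul]
  have : c * w * (conj c * conj z) = (Complex.normSq c : ℂ) * (w * conj z) := by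
    rw [Complex.normSq_eq_conj_mul_self]; ring
  rw [this, h]; simp

lemma norm_D {c : ℂ} (hc : ‖c‖ = 1) (x : C2) : ‖D c x‖ = ‖x‖ := by
  have h : ‖D c x‖ ^ 2 = ‖x‖ ^ 2 := by
    rw [norm_sq_C2, norm_sq_C2]; simp [hc]
  exact (sq_eq_sq₀ (norm_nonneg _) (norm_nonneg _)).mp h

lemma inner_D {c : ℂ} (hc : ‖c‖ = 1) (x y : C2) : ⟪D c x, D c y⟫ = ⟪x, y⟫ := by
  rw [inner_C2, inner_C2, D_fst, D_fst, D_snd, D_snd, inner_mul_left_unit hc]

lemma nrm_D {c : ℂ} (hc : ‖c‖ = 1) (x u : C2) (ζ : ℂ) : nrm (D c x) (D c u) ζ = nrm x u ζ := by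
  unfold nrm
  rw [norm_D hc, norm_D hc, ← D_smul, inner_D hc]

/-- The Finsler metric on `(ℂ² \ 0) × (ℂ \ 0)`. -/
noncomputable def FM (p v : E6) : ℝ := nrm p.1 v.1 (v.2 / p.2)

/-- The Finsler metric of the quotient, on `(ℂ² \ 0) × (ℂ \ 0)`. -/
noncomputable def FN (q v : E6) : ℝ :=
  nrm q.1 (v.1 + (((v.2 / q.2).im / 2 : ℝ) : ℂ) • (Complex.I • P1 q.1)) (v.2 / (2 * q.2))

/-- The involution `(a, b, y) ↦ (-a, b, -y)`. -/
noncomputable def gam (p : E6) : E6 := (D (-1) p.1, -p.2)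

/-- The covering map `(a, b, y) ↦ (a ȳ/|y|, b, y²)`. -/
noncomputable def cov (p : E6) : E6 := (D (conj p.2 / ‖p.2‖) p.1, p.2 ^ 2)

lemma isOpen_dom : IsOpen dom :=
  (isOpen_compl_singleton.preimage continuous_fst).inter
    (isOpen_compl_singleton.preimage continuous_snd)

lemma isConnected_dom : IsConnected dom := by
  have h1 : IsConnected ({0}ᶜ : Set C2) := by
    apply isConnected_compl_singleton_of_one_lt_rank
    rw [← Module.finrank_eq_rank ℝ C2]
    have : Module.finrank ℝ C2 = 4 := by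
      have e := (WithLp.prodContinuousLinearEquiv 2 ℝ ℂ ℂ).toLinearEquiv.finrank_eq
      rw [e, Module.finrank_prod, Complex.finrank_real_complex]
    rw [this]; norm_num
  have h2 : IsConnected ({0}ᶜ : Set ℂ) := by
    apply isConnected_compl_singleton_of_one_lt_rank
    rw [Complex.rank_real_complex]; norm_num
  have : dom = ({0}ᶜ : Set C2) ×ˢ ({0}ᶜ : Set ℂ) := by
    ext p; simp [dom]
  rw [this]
  exact h1.prod h2

lemma FM_isRanders : IsRanders dom FM := by
  refine isRanders_of (A := fun _ => ContinuousLinearMap.fst ℝ C2 ℂ)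
    (Z := fun p => (p.2)⁻¹ • ContinuousLinearMap.snd ℝ C2 ℂ) (fun p hp => hp.1) ?_ ?_ ?_ ?_
  · intro v; exact contDiffOn_const
  · intro v
    simp only [smul_apply, ContinuousLinearMap.coe_snd', smul_eq_mul]
    exact (contDiff_snd.contDiffOn.inv fun p hp => hp.2).mul contDiffOn_const
  · intro p hp v h1 h2
    simp only [ContinuousLinearMap.coe_fst'] at h1
    simp only [smul_apply, ContinuousLinearMap.coe_snd', smul_eq_mul, mul_eq_zero, inv_eq_zero,
      hp.2, false_or] at h2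
    exact Prod.ext h1 h2
  · intro p hp v
    simp only [FM, smul_apply, ContinuousLinearMap.coe_snd', ContinuousLinearMap.coe_fst',
      smul_eq_mul, div_eq_mul_inv, mul_comm]

/-- The linear map `(u, w') ↦ u + ½ Im(w'/w) i P x`. -/
noncomputable def AN (q : E6) : E6 →L[ℝ] C2 :=
  ContinuousLinearMap.fst ℝ C2 ℂ +
    ((1 / 2 : ℝ) • Complex.imCLM.comp ((q.2)⁻¹ • ContinuousLinearMap.snd ℝ C2 ℂ)).smulRight
      (Complex.I • P1 q.1)

lemma AN_apply (q v : E6) :
    AN q v = v.1 + (((v.2 / q.2).im / 2 : ℝ) : ℂ) • (Complex.I • P1 q.1) := by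
  simp only [AN, add_apply, ContinuousLinearMap.coe_fst', ContinuousLinearMap.smulRight_apply,
    smul_apply, ContinuousLinearMap.comp_apply, ContinuousLinearMap.coe_snd', Complex.imCLM_apply,
    smul_eq_mul]
  rw [Complex.coe_smul]
  congr 2
  rw [mul_comm (q.2)⁻¹, ← div_eq_mul_inv]; ring

lemma FN_isRanders : IsRanders dom FN := by
  refine isRanders_of (A := AN)
    (Z := fun q => (2 * q.2)⁻¹ • ContinuousLinearMap.snd ℝ C2 ℂ) (fun p hp => hp.1) ?_ ?_ ?_ ?_
  · intro v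
    simp only [AN_apply]
    have h1 : ContDiffOn ℝ ∞ (fun q : E6 => v.2 / q.2) dom := by
      simp only [div_eq_mul_inv]
      exact contDiffOn_const.mul (contDiff_snd.contDiffOn.inv fun p hp => hp.2)
    have h2 : ContDiffOn ℝ ∞ (fun q : E6 => (((v.2 / q.2).im / 2 : ℝ) : ℂ)) dom :=
      Complex.ofRealCLM.contDiff.comp_contDiffOn
        ((Complex.imCLM.contDiff.comp_contDiffOn h1).div_const 2)
    have h3 : ContDiffOn ℝ ∞ (fun q : E6 => Complex.I • P1 q.1) dom :=
      (((P1.restrictScalars ℝ).contDiff.comp contDiff_fst).const_smul Complex.I).contDiffOn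
    exact contDiffOn_const.add (h2.smul h3)
  · intro v
    simp only [smul_apply, ContinuousLinearMap.coe_snd', smul_eq_mul]
    exact ((contDiff_const.mul contDiff_snd).contDiffOn.inv
      fun p hp => mul_ne_zero two_ne_zero hp.2).mul contDiffOn_const
  · intro p hp v h1 h2
    simp only [smul_apply, ContinuousLinearMap.coe_snd', smul_eq_mul, mul_eq_zero, inv_eq_zero,
      hp.2, or_false, OfNat.ofNat_ne_zero, false_or] at h2
    rw [AN_apply, h2] at h1
    simp only [zero_div, Complex.zero_im, Complex.ofReal_zero, zero_smul, add_zero] at h1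
    exact Prod.ext h1 h2
  · intro p hp v
    simp only [FN, AN_apply, smul_apply, ContinuousLinearMap.coe_snd', smul_eq_mul, div_eq_mul_inv,
      mul_comm]

end Pool.Agent.H420R3
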