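import Pool.Agent.H420R3.Example2

/-! The example, continued: homogeneity of the metric upstairs, and the covering. -/

open Set Filter Topology
open scoped ContDiff RealInnerProductSpace ComplexConjugate

namespace Pool.Agent.H420R3

/-- The linear map `(a, b) ↦ (α a - β̄ b, β a + ᾱ b)`. -/
noncomputable def Lq (α β : ℂ) : C2 →ₗ[ℂ] C2 where
  toFun x := WithLp.toLp 2 (α * x.fst - conj β * x.snd, β * x.fst + conj α * x.snd)
  map_add' x y := by apply C2_ext <;> simp <;> ring
  map_smul' c x := by apply C2_ext <;> simp <;> ring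

@[simp] lemma Lq_fst (α β : ℂ) (x : C2) : (Lq α β x).fst = α * x.fst - conj β * x.snd := rfl
@[simp] lemma Lq_snd (α β : ℂ) (x : C2) : (Lq α β x).snd = β * x.fst + conj α * x.snd := rfl

lemma inner_Lq (α β : ℂ) (x y : C2) :
    ⟪Lq α β x, Lq α β y⟫ = (Complex.normSq α + Complex.normSq β) * ⟪x, y⟫ := by
  rw [inner_C2, inner_C2, Lq_fst, Lq_snd, Lq_fst, Lq_snd]
  simp only [Complex.inner, Complex.normSq_apply, map_sub, map_add, map_mul, Complex.conj_conj,
    Complex.mul_re, Complex.sub_re, Complex.sub_im, Complex.add_re, Complex.add_im, Complex.mul_im,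
    Complex.conj_re, Complex.conj_im]
  ring

lemma norm_Lq (α β : ℂ) (x : C2) :
    ‖Lq α β x‖ ^ 2 = (Complex.normSq α + Complex.normSq β) * ‖x‖ ^ 2 := by
  rw [← real_inner_self_eq_norm_sq, inner_Lq, real_inner_self_eq_norm_sq]

lemma nrm_Lq {α β : ℂ} (h : Complex.normSq α + Complex.normSq β ≠ 0) (x u : C2) (ζ : ℂ) :
    nrm (Lq α β x) (Lq α β u) ζ = nrm x u ζ := by
  unfold nrm
  rw [← map_smul, inner_Lq, norm_Lq, norm_Lq, mul_div_mul_left _ _ h, mul_div_mul_left _ _ h]

/-- The isometries `(x, y) ↦ (L x, ζ y)`. -/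
noncomputable def Phi (α β ζ : ℂ) : E6 →L[ℝ] E6 :=
  (((Lq α β).toContinuousLinearMap.restrictScalars ℝ).comp (ContinuousLinearMap.fst ℝ C2 ℂ)).prod
    (ζ • ContinuousLinearMap.snd ℝ C2 ℂ)

lemma Phi_apply (α β ζ : ℂ) (p : E6) : Phi α β ζ p = (Lq α β p.1, ζ * p.2) := rfl

lemma Lq_Lq (α β : ℂ) (h : Complex.normSq α + Complex.normSq β ≠ 0) (x : C2) :
    Lq (conj α / (Complex.normSq α + Complex.normSq β : ℝ))
      (-β / (Complex.normSq α + Complex.normSq β : ℝ)) (Lq α β x) = x := by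
  have h' : ((Complex.normSq α + Complex.normSq β : ℝ) : ℂ) ≠ 0 := by exact_mod_cast h
  have e : ((Complex.normSq α + Complex.normSq β : ℝ) : ℂ) = conj α * α + conj β * β := by
    rw [Complex.ofReal_add, Complex.normSq_eq_conj_mul_self, Complex.normSq_eq_conj_mul_self]
  apply C2_ext
  · simp only [Lq_fst, Lq_snd, map_div₀, map_neg, Complex.conj_ofReal]
    field_simp
    rw [e]; ring
  · simp only [Lq_fst, Lq_snd, map_div₀, map_neg, Complex.conj_ofReal, Complex.conj_conj]
    field_simp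
    rw [e]; ring

lemma Lq_Lq' (α β : ℂ) (h : Complex.normSq α + Complex.normSq β ≠ 0) (x : C2) :
    Lq α β (Lq (conj α / (Complex.normSq α + Complex.normSq β : ℝ))
      (-β / (Complex.normSq α + Complex.normSq β : ℝ)) x) = x := by
  have h' : ((Complex.normSq α + Complex.normSq β : ℝ) : ℂ) ≠ 0 := by exact_mod_cast h
  have e : ((Complex.normSq α + Complex.normSq β : ℝ) : ℂ) = conj α * α + conj β * β := by
    rw [Complex.ofReal_add, Complex.normSq_eq_conj_mul_self, Complex.normSq_eq_conj_mul_self]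
  apply C2_ext
  · simp only [Lq_fst, Lq_snd, map_div₀, map_neg, Complex.conj_ofReal, Complex.conj_conj]
    field_simp
    rw [e]; ring
  · simp only [Lq_fst, Lq_snd, map_div₀, map_neg, Complex.conj_ofReal, Complex.conj_conj]
    field_simp
    rw [e]; ring

lemma Lq_ne_zero {α β : ℂ} (h : Complex.normSq α + Complex.normSq β ≠ 0) {x : C2} (hx : x ≠ 0) :
    Lq α β x ≠ 0 := by
  intro h0
  apply hx
  rw [← Lq_Lq α β h x, h0, map_zero]

lemma Phi_isometry {α β ζ : ℂ} (h : Complex.normSq α + Complex.normSq β ≠ 0) (hζ : ζ ≠ 0) :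
    IsFinslerIsometry dom FM (Phi α β ζ) := by
  set N : ℝ := Complex.normSq α + Complex.normSq β with hN
  have hN' : (N : ℂ) ≠ 0 := by exact_mod_cast h
  have h2 : Complex.normSq (conj α / (N : ℝ)) + Complex.normSq (-β / (N : ℝ)) ≠ 0 := by
    rw [Complex.normSq_div, Complex.normSq_div, Complex.normSq_conj, Complex.normSq_neg, ← add_div,
      ← hN]
    exact div_ne_zero h (by rw [Complex.normSq_ofReal]; exact mul_ne_zero h h)
  refine ⟨Phi (conj α / (N : ℝ)) (-β / (N : ℝ)) ζ⁻¹, ?_, ?_, ?_, ?_, ?_, ?_, ?_⟩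
  · intro p hp
    exact ⟨Lq_ne_zero h hp.1, mul_ne_zero hζ hp.2⟩
  · intro p hp
    exact ⟨Lq_ne_zero h2 hp.1, mul_ne_zero (inv_ne_zero hζ) hp.2⟩
  · intro p _
    rw [Phi_apply, Phi_apply]
    refine Prod.ext (Lq_Lq α β h p.1) ?_
    simp [inv_mul_cancel_left₀ hζ]
  · intro p _
    rw [Phi_apply, Phi_apply]
    refine Prod.ext (Lq_Lq' α β h p.1) ?_
    simp [mul_inv_cancel_left₀ hζ]
  · exact (Phi α β ζ).contDiff.contDiffOn
  · exact (Phi _ _ _).contDiff.contDiffOn
  · intro p hp v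
    rw [(Phi α β ζ).fderiv]
    simp only [FM, Phi_apply]
    rw [nrm_Lq h, mul_div_mul_left _ _ hζ]

theorem FM_homogeneous : IsHomogeneous dom FM := by
  intro p hp q hq
  set n : ℝ := ‖p.1‖ ^ 2 with hn
  have hn0 : n ≠ 0 := by
    have := norm_pos_iff.mpr hp.1; positivity
  have hn' : (n : ℂ) ≠ 0 := by exact_mod_cast hn0
  have hnC : (n : ℂ) = conj p.1.fst * p.1.fst + conj p.1.snd * p.1.snd := by
    rw [hn, norm_sq_C2, Complex.ofReal_add, ← Complex.normSq_eq_norm_sq,
      ← Complex.normSq_eq_norm_sq, Complex.normSq_eq_conj_mul_self,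
      Complex.normSq_eq_conj_mul_self]
  set α : ℂ := (q.1.fst * conj p.1.fst + conj q.1.snd * p.1.snd) / n with hα
  set β : ℂ := (q.1.snd * conj p.1.fst - conj q.1.fst * p.1.snd) / n with hβ
  have hL : Lq α β p.1 = q.1 := by
    apply C2_ext
    · simp only [Lq_fst, hα, hβ, map_div₀, map_sub, map_mul, Complex.conj_conj,
        Complex.conj_ofReal]
      field_simp
      rw [hnC]; ring
    · simp only [Lq_snd, hα, hβ, map_div₀, map_add, map_mul, Complex.conj_conj,
        Complex.conj_ofReal]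
      field_simp
      rw [hnC]; ring
  have hne : Complex.normSq α + Complex.normSq β ≠ 0 := by
    intro h0
    have hn2 := norm_Lq α β p.1
    rw [hL, h0, zero_mul] at hn2
    have := norm_pos_iff.mpr hq.1
    have : 0 < ‖q.1‖ ^ 2 := by positivity
    linarith
  refine ⟨Phi α β (q.2 / p.2), Phi_isometry hne (div_ne_zero hq.2 hp.2), ?_⟩
  rw [Phi_apply, hL, div_mul_cancel₀ _ hp.2]

end Pool.Agent.H420R3
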