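import Pool.Agent.H420R3.Example3

/-! The example, continued: the covering map. -/

open Set Filter Topology
open scoped ContDiff RealInnerProductSpace ComplexConjugate

namespace Pool.Agent.H420R3

/-- `D c` as a continuous linear map. -/
noncomputable def DL (c : ℂ) : C2 →L[ℂ] C2 := ContinuousLinearMap.id ℂ C2 + (c - 1) • P1

lemma DL_apply (c : ℂ) (x : C2) : DL c x = D c x := by
  rw [D_eq]; simp [DL]

/-- `gam` as a continuous linear map. -/
noncomputable def gamL : E6 →L[ℝ] E6 :=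
  (((DL (-1)).restrictScalars ℝ).comp (ContinuousLinearMap.fst ℝ C2 ℂ)).prod
    (-ContinuousLinearMap.snd ℝ C2 ℂ)

lemma gamL_apply (p : E6) : gamL p = gam p := by
  refine Prod.ext ?_ ?_
  · simp [gamL, gam, DL_apply]
  · simp [gamL, gam]

lemma gam_eq : gam = gamL := by funext p; exact (gamL_apply p).symm

lemma D_ne_zero {c : ℂ} (hc : c ≠ 0) {x : C2} (hx : x ≠ 0) : D c x ≠ 0 := by
  intro h
  apply hx
  rw [← D_one x, ← inv_mul_cancel₀ hc, ← D_D, h, D_eq]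
  simp

lemma gam_mem {p : E6} (hp : p ∈ dom) : gam p ∈ dom :=
  ⟨D_ne_zero (by norm_num) hp.1, neg_ne_zero.mpr hp.2⟩

lemma gam_gam (p : E6) : gam (gam p) = p := by
  refine Prod.ext ?_ ?_
  · simp [gam, D_D, D_one]
  · simp [gam]

lemma gam_isometry : IsFinslerIsometry dom FM gam := by
  refine ⟨gam, fun p hp => gam_mem hp, fun p hp => gam_mem hp, fun p _ => gam_gam p,
    fun p _ => gam_gam p, ?_, ?_, ?_⟩
  · rw [gam_eq]; exact gamL.contDiff.contDiffOn
  · rw [gam_eq]; exact gamL.contDiff.contDiffOn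
  · intro p hp v
    have h : fderiv ℝ gam p v = gam v := by
      rw [gam_eq, gamL.fderiv]
    rw [h]
    simp only [FM, gam]
    rw [nrm_D (by simp), neg_div_neg_eq]

lemma id_isometry {U : Set E6} {F : E6 → E6 → ℝ} : IsFinslerIsometry U F id := by
  refine ⟨id, mapsTo_id _, mapsTo_id _, fun _ _ => rfl, fun _ _ => rfl, contDiff_id.contDiffOn,
    contDiff_id.contDiffOn, ?_⟩
  intro p _ v
  rw [fderiv_id]; rfl

/-- The unit complex number `ȳ/|y|`. -/
noncomputable def cc (y : ℂ) : ℂ := conj y / ‖y‖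

lemma norm_cc {y : ℂ} (hy : y ≠ 0) : ‖cc y‖ = 1 := by
  have := norm_pos_iff.mpr hy
  simp [cc, this.ne']

lemma cc_ne_zero {y : ℂ} (hy : y ≠ 0) : cc y ≠ 0 := by
  rw [← norm_pos_iff, norm_cc hy]; norm_num

lemma cov_apply (p : E6) : cov p = (D (cc p.2) p.1, p.2 ^ 2) := rfl

lemma contDiffAt_cc {y : ℂ} (hy : y ≠ 0) : ContDiffAt ℝ ∞ cc y := by
  have h1 : ContDiffAt ℝ ∞ (fun y : ℂ => conj y) y := Complex.conjCLE.contDiff.contDiffAt
  have h2 : ContDiffAt ℝ ∞ (fun y : ℂ => ((‖y‖ : ℝ) : ℂ)) y :=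
    Complex.ofRealCLM.contDiff.contDiffAt.comp y (contDiffAt_norm ℝ hy)
  have h3 : ((‖y‖ : ℝ) : ℂ) ≠ 0 := by
    exact_mod_cast (norm_pos_iff.mpr hy).ne'
  have h4 := h1.mul (h2.inv h3)
  exact h4.congr_of_eventuallyEq (Eventually.of_forall fun z => by simp [cc, div_eq_mul_inv])

lemma contDiffAt_cov {p : E6} (hp : p ∈ dom) : ContDiffAt ℝ ∞ cov p := by
  have h1 : ContDiffAt ℝ ∞ (fun p : E6 => cc p.2) p :=
    (contDiffAt_cc hp.2).comp p contDiffAt_snd
  have h2 : ContDiffAt ℝ ∞ (fun p : E6 => P1 p.1) p :=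
    ((P1.restrictScalars ℝ).contDiff.comp contDiff_fst).contDiffAt
  have h3 : ContDiffAt ℝ ∞ (fun p : E6 => p.1 + (cc p.2 - 1) • P1 p.1) p :=
    contDiffAt_fst.add ((h1.sub contDiffAt_const).smul h2)
  have h4 : ContDiffAt ℝ ∞ (fun p : E6 => p.2 ^ 2) p := contDiffAt_snd.pow 2
  have h5 := h3.prodMk h4
  refine h5.congr_of_eventuallyEq (Eventually.of_forall fun q => ?_)
  rw [cov_apply, D_eq]

/-- Derivative of `ȳ/|y|` along a line. -/
lemma hasDerivAt_cc {y : ℂ} (hy : y ≠ 0) (v : ℂ) :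
    HasDerivAt (fun t : ℝ => cc (y + t * v)) (-Complex.I * ((v / y).im : ℝ) * cc y) 0 := by
  have hn : 0 < ‖y‖ := norm_pos_iff.mpr hy
  have hnC : ((‖y‖ : ℝ) : ℂ) ≠ 0 := by exact_mod_cast hn.ne'
  have hl : HasDerivAt (fun t : ℝ => y + t * v) v 0 := by
    have := (Complex.ofRealCLM.hasDerivAt (x := (0 : ℝ))).mul_const v
    simpa using this.const_add y
  have h1 : HasDerivAt (fun t : ℝ => conj (y + t * v)) (conj v) 0 :=
    Complex.conjCLE.hasFDerivAt.comp_hasDerivAt (0 : ℝ) hl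
  have h2 : HasDerivAt (fun t : ℝ => ‖y + t * v‖ ^ 2) (2 * ⟪y + (0 : ℝ) * v, v⟫) 0 := by
    simpa using hl.norm_sq
  have h3 : HasDerivAt (fun t : ℝ => √(‖y + t * v‖ ^ 2))
      (2 * ⟪y + (0 : ℝ) * v, v⟫ / (2 * √(‖y + (0 : ℝ) * v‖ ^ 2))) 0 :=
    h2.sqrt (by simpa using hn.ne')
  have h4 : HasDerivAt (fun t : ℝ => ‖y + t * v‖) (⟪y, v⟫ / ‖y‖) 0 := by
    have h5 : HasDerivAt (fun t : ℝ => ‖y + t * v‖)
        (2 * ⟪y + (0 : ℝ) * v, v⟫ / (2 * √(‖y + (0 : ℝ) * v‖ ^ 2))) 0 :=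
      h3.congr_of_eventuallyEq (Eventually.of_forall fun t => by
        simp only [Real.sqrt_sq (norm_nonneg _)])
    refine h5.congr_deriv ?_
    simp only [Complex.ofReal_zero, zero_mul, add_zero, Real.sqrt_sq (norm_nonneg _)]
    rw [mul_div_mul_left _ _ two_ne_zero]
  have h6 : HasDerivAt (fun t : ℝ => ((‖y + t * v‖ : ℝ) : ℂ)) ((⟪y, v⟫ / ‖y‖ : ℝ) : ℂ) 0 :=
    h4.ofReal_comp
  have h7 := h1.div h6 (by simpa using hn.ne')
  refine h7.congr_deriv ?_
  simp only [Complex.ofReal_zero, zero_mul, add_zero, cc]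
  have hsq : ((‖y‖ : ℝ) : ℂ) ^ 2 = conj y * y := by
    rw [← Complex.ofReal_pow, ← Complex.normSq_eq_norm_sq, Complex.normSq_eq_conj_mul_self]
  have hin : ((⟪y, v⟫ : ℝ) : ℂ) = (conj y * v + y * conj v) / 2 := by
    rw [Complex.inner, Complex.re_eq_add_conj]
    simp only [map_mul, Complex.conj_conj]; ring
  have him : (((v / y).im : ℝ) : ℂ) = (v / y - conj v / conj y) / (2 * Complex.I) := by
    rw [Complex.im_eq_sub_conj, map_div₀]
  have hcy : conj y ≠ 0 := by simpa using hy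
  rw [Complex.ofReal_div, hin, him]
  have hI : Complex.I ≠ 0 := Complex.I_ne_zero
  field_simp
  rw [hsq]
  ring

/-- The derivative of the covering map. -/
lemma fderiv_cov {p : E6} (hp : p ∈ dom) (v : E6) :
    fderiv ℝ cov p v = (D (cc p.2) v.1 + (-Complex.I * ((v.2 / p.2).im : ℝ) * cc p.2) • P1 p.1,
      2 * p.2 * v.2) := by
  have hd := (contDiffAt_cov hp).differentiableAt (by simp)
  have hl : HasDerivAt (fun t : ℝ => p + t • v) v 0 := by
    simpa using ((hasDerivAt_id (0 : ℝ)).smul_const v).const_add p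
  have h1 : HasDerivAt (fun t : ℝ => cov (p + t • v)) (fderiv ℝ cov p v) 0 := by
    have h2 : HasFDerivAt cov (fderiv ℝ cov p) (p + (0 : ℝ) • v) := by simpa using hd.hasFDerivAt
    exact h2.comp_hasDerivAt 0 hl
  have hc := hasDerivAt_cc hp.2 v.2
  have hx : HasDerivAt (fun t : ℝ => p.1 + t • v.1) v.1 0 := by
    simpa using ((hasDerivAt_id (0 : ℝ)).smul_const v.1).const_add p.1
  have hP : HasDerivAt (fun t : ℝ => P1 (p.1 + t • v.1)) (P1 v.1) 0 :=
    (P1.restrictScalars ℝ).hasFDerivAt.comp_hasDerivAt (0 : ℝ) hx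
  have h3 := hx.add ((hc.sub_const 1).smul hP)
  have hy : HasDerivAt (fun t : ℝ => p.2 + (t : ℂ) * v.2) v.2 0 := by
    have := (Complex.ofRealCLM.hasDerivAt (x := (0 : ℝ))).mul_const v.2
    simpa using this.const_add p.2
  have h4 := hy.fun_pow 2
  have h5 := h3.prodMk h4
  have h6 : HasDerivAt (fun t : ℝ => cov (p + t • v))
      (v.1 + ((cc (p.2 + (0 : ℝ) * v.2) - 1) • P1 v.1 +
        (-Complex.I * ((v.2 / p.2).im : ℝ) * cc p.2) • P1 (p.1 + (0 : ℝ) • v.1)),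
        ((2 : ℕ) : ℂ) * (p.2 + (0 : ℝ) * v.2) ^ (2 - 1) * v.2) 0 := by
    refine h5.congr_of_eventuallyEq (Eventually.of_forall fun t => ?_)
    simp only [cov_apply, D_eq, Prod.fst_add, Prod.snd_add, Prod.smul_fst, Prod.smul_snd,
      Complex.real_smul, Pi.add_apply]
    rfl
  rw [h1.unique h6]
  refine Prod.ext ?_ ?_
  · simp only [Complex.ofReal_zero, zero_mul, add_zero, zero_smul, D_eq]
    abel
  · simp

lemma P1_D (c : ℂ) (x : C2) : P1 (D c x) = c • P1 x := by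
  rw [P1_apply, P1_apply]
  apply C2_ext <;> simp

lemma cov_induced {p : E6} (hp : p ∈ dom) (v : E6) : FN (cov p) (fderiv ℝ cov p v) = FM p v := by
  rw [fderiv_cov hp, cov_apply]
  simp only [FN, FM]
  have hy := hp.2
  have h1 : 2 * p.2 * v.2 / p.2 ^ 2 = 2 * (v.2 / p.2) := by field_simp
  have h2 : 2 * p.2 * v.2 / (2 * p.2 ^ 2) = v.2 / p.2 := by field_simp
  rw [h1, h2]
  have h3 : (2 * (v.2 / p.2)).im / 2 = (v.2 / p.2).im := by
    have : (2 * (v.2 / p.2)).im = 2 * (v.2 / p.2).im := by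
      simp [Complex.mul_im]
    rw [this]; ring
  rw [h3, P1_D]
  have h4 : D (cc p.2) v.1 + (-Complex.I * ((v.2 / p.2).im : ℝ) * cc p.2) • P1 p.1
      + (((v.2 / p.2).im : ℝ) : ℂ) • (Complex.I • (cc p.2 • P1 p.1)) = D (cc p.2) v.1 := by
    rw [smul_smul, smul_smul, add_assoc, ← add_smul]
    have : -Complex.I * ((v.2 / p.2).im : ℝ) * cc p.2
        + (((v.2 / p.2).im : ℝ) : ℂ) * Complex.I * cc p.2 = 0 := by ring
    rw [this, zero_smul, add_zero]
  rw [h4, nrm_D (norm_cc hy)]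

end Pool.Agent.H420R3
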