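import Pool.Agent.H420R3.Example4

/-! The example, continued: the covering. -/

open Set Filter Topology
open scoped ContDiff RealInnerProductSpace ComplexConjugate

namespace Pool.Agent.H420R3

lemma cov_mem {p : E6} (hp : p ∈ dom) : cov p ∈ dom :=
  ⟨D_ne_zero (cc_ne_zero hp.2) hp.1, pow_ne_zero 2 hp.2⟩

lemma cc_neg (y : ℂ) : cc (-y) = -cc y := by simp [cc, neg_div]

lemma D_injective {c : ℂ} (hc : c ≠ 0) {x y : C2} (h : D c x = D c y) : x = y := by
  rw [← D_one x, ← D_one y, ← inv_mul_cancel₀ hc, ← D_D, ← D_D, h]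

lemma cov_fiber {p q : E6} (hp : p ∈ dom) :
    cov p = cov q ↔ q = p ∨ q = gam p := by
  constructor
  · intro h
    rw [cov_apply, cov_apply] at h
    have h1 : D (cc p.2) p.1 = D (cc q.2) q.1 := congrArg Prod.fst h
    have h2 : p.2 ^ 2 = q.2 ^ 2 := congrArg Prod.snd h
    rcases sq_eq_sq_iff_eq_or_eq_neg.mp h2 with h3 | h3
    · left
      rw [h3] at h1
      have hq : q.2 ≠ 0 := by rw [← h3]; exact hp.2
      exact Prod.ext (D_injective (cc_ne_zero hq) h1).symm h3.symm
    · right
      have hq : q.2 ≠ 0 := by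
        intro h0; rw [h0, neg_zero] at h3; exact hp.2 h3
      rw [h3, cc_neg] at h1
      have h4 : D (cc q.2) q.1 = D (cc q.2) (D (-1) p.1) := by
        rw [D_D, ← h1]; ring_nf
      refine Prod.ext (D_injective (cc_ne_zero hq) h4) ?_
      simp [gam, h3]
  · rintro (h | h)
    · rw [h]
    · rw [h, cov_apply, cov_apply]
      simp only [gam, cc_neg, D_D]
      refine Prod.ext ?_ ?_
      · simp
      · simp

lemma cov_surj {q : E6} (hq : q ∈ dom) : ∃ p ∈ dom, cov p = q := by
  obtain ⟨y, hy⟩ := IsAlgClosed.exists_pow_nat_eq q.2 (n := 2) (by norm_num)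
  have hy0 : y ≠ 0 := by
    rintro rfl
    apply hq.2; rw [← hy]; simp
  refine ⟨(D (cc y)⁻¹ q.1, y), ⟨D_ne_zero (inv_ne_zero (cc_ne_zero hy0)) hq.1, hy0⟩, ?_⟩
  rw [cov_apply]
  refine Prod.ext ?_ hy
  simp only
  rw [D_D, mul_inv_cancel₀ (cc_ne_zero hy0), D_one]

lemma cov_bijective {p : E6} (hp : p ∈ dom) : Function.Bijective (fderiv ℝ cov p) := by
  have hinj : Function.Injective (fderiv ℝ cov p : E6 →ₗ[ℝ] E6) := by
    rw [injective_iff_map_eq_zero]
    intro v hv
    have hv' : fderiv ℝ cov p v = 0 := hv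
    rw [fderiv_cov hp] at hv'
    have h1 := congrArg Prod.snd hv'
    have h2 := congrArg Prod.fst hv'
    simp only [Prod.snd_zero, mul_eq_zero, OfNat.ofNat_ne_zero, false_or, hp.2] at h1
    simp only [h1, zero_div, Complex.zero_im, Complex.ofReal_zero, mul_zero, zero_mul, zero_smul,
      add_zero, Prod.fst_zero] at h2
    have h3 : v.1 = 0 := by
      by_contra h; exact D_ne_zero (cc_ne_zero hp.2) h h2
    exact Prod.ext h3 h1
  exact ⟨hinj, LinearMap.injective_iff_surjective.mp hinj⟩

theorem covering : IsFinslerCovering dom FM dom FN {id, gam} cov where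
  isometry := by
    rintro g (rfl | rfl)
    · exact id_isometry
    · exact gam_isometry
  one_mem := by simp
  mul_mem := by
    rintro g (rfl | rfl) h (rfl | rfl)
    · simp
    · simp
    · simp
    · left; funext p; exact gam_gam p
  inv_mem := by
    rintro g (rfl | rfl)
    · exact ⟨id, by simp, rfl, rfl⟩
    · refine ⟨gam, by simp, ?_, ?_⟩ <;> · funext p; exact gam_gam p
  free := by
    rintro g (rfl | rfl) hne p hp h
    · exact hne rfl
    · have h1 : -p.2 = p.2 := congrArg Prod.snd h
      exact hp.2 (neg_eq_self.mp h1)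
  properlyDiscontinuous := by
    intro K _ _
    exact ((Set.finite_singleton gam).insert id).subset fun g hg => hg.1
  contDiffOn := fun p hp => (contDiffAt_cov hp).contDiffWithinAt
  image_eq := by
    ext q
    constructor
    · rintro ⟨p, hp, rfl⟩; exact cov_mem hp
    · intro hq; exact cov_surj hq
  fiber := by
    intro p hp q _
    rw [cov_fiber hp]
    constructor
    · rintro (h | h)
      · exact ⟨id, by simp, h.symm⟩
      · exact ⟨gam, by simp, h.symm⟩
    · rintro ⟨g, (rfl | rfl), h⟩
      · left; exact h.symm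
      · right; exact h.symm
  bijective := fun p hp => cov_bijective hp
  induced := fun p hp v => cov_induced hp v

end Pool.Agent.H420R3
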