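import Mathlib

/-! Finsler manifolds that are connected open subsets of a finite-dimensional real vector space:
basic definitions (Finsler metric, Randers type, directed distance, isometry, homogeneity,
covering by a discrete group of isometries). -/

open Set
open scoped ContDiff

namespace Pool.Agent.H420R3

variable {V : Type} [NormedAddCommGroup V] [NormedSpace ℝ V]
variable {W : Type} [NormedAddCommGroup W] [NormedSpace ℝ W]

/-- `F` is a Finsler metric on the manifold `U`, a connected open subset of the vector space `V`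
(all tangent spaces are identified with `V`, and `F x v` is the value of `F` at the tangent vector
`v` at the point `x`): `F` is continuous, smooth off the zero section, nonnegative, positively
homogeneous of degree one, and the fibrewise Hessian of `F²` is positive definite off the zero
section. -/
structure IsFinsler (U : Set V) (F : V → V → ℝ) : Prop where
  isOpen : IsOpen U
  isConnected : IsConnected U
  continuousOn : ContinuousOn (fun p : V × V => F p.1 p.2) (U ×ˢ univ)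
  contDiffOn : ContDiffOn ℝ ∞ (fun p : V × V => F p.1 p.2) (U ×ˢ {0}ᶜ)
  nonneg : ∀ x ∈ U, ∀ v : V, 0 ≤ F x v
  homog : ∀ x ∈ U, ∀ v : V, ∀ c : ℝ, 0 < c → F x (c • v) = c * F x v
  convex : ∀ x ∈ U, ∀ v : V, v ≠ 0 → ∀ w : V, w ≠ 0 →
    0 < fderiv ℝ (fderiv ℝ (fun u : V => F x u ^ 2)) v w w

/-- `F` is of Randers type on `U`: `F(v) = √a(v,v) + b(v)` with `a` a (smooth) Riemannian metric
and `b` a (smooth) 1-form of `a`-norm less than one everywhere. -/
def IsRanders (U : Set V) (F : V → V → ℝ) : Prop :=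
  ∃ (a : V → V →L[ℝ] V →L[ℝ] ℝ) (b : V → V →L[ℝ] ℝ),
    ContDiffOn ℝ ∞ a U ∧ ContDiffOn ℝ ∞ b U ∧
    (∀ x ∈ U, ∀ v w : V, a x v w = a x w v) ∧
    (∀ x ∈ U, ∀ v : V, v ≠ 0 → 0 < a x v v) ∧
    (∀ x ∈ U, ∀ v : V, v ≠ 0 → |b x v| < √(a x v v)) ∧
    ∀ x ∈ U, ∀ v : V, F x v = √(a x v v) + b x v

/-- There is a smooth curve `c : [0,1] → U` from `p` to `q` of `F`-length `ℓ = ∫ F(c'(t)) dt`. -/
def SmoothArc (U : Set V) (F : V → V → ℝ) (p q : V) (ℓ : ℝ) : Prop :=
  ∃ c : ℝ → V, ContDiffOn ℝ ∞ c (Icc 0 1) ∧ (∀ t ∈ Icc (0 : ℝ) 1, c t ∈ U) ∧ c 0 = p ∧ c 1 = q ∧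
    ∫ t in (0 : ℝ)..1, F (c t) (derivWithin c (Icc 0 1) t) = ℓ

/-- There is a piecewise smooth curve in `U` from `p` to `q` of `F`-length `ℓ`: a finite
concatenation of smooth curves. -/
inductive PiecewiseArc (U : Set V) (F : V → V → ℝ) : V → V → ℝ → Prop
  | arc {p q : V} {ℓ : ℝ} : SmoothArc U F p q ℓ → PiecewiseArc U F p q ℓ
  | concat {p q s : V} {ℓ ℓ' : ℝ} : PiecewiseArc U F p q ℓ → PiecewiseArc U F q s ℓ' →
      PiecewiseArc U F p s (ℓ + ℓ')

/-- The (in general not symmetric) distance from `p` to `q`: the infimum of the `F`-lengths of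
piecewise smooth curves in `U` from `p` to `q`. -/
noncomputable def finslerDist (U : Set V) (F : V → V → ℝ) (p q : V) : ℝ :=
  sInf {ℓ : ℝ | PiecewiseArc U F p q ℓ}

/-- `Φ` restricts to an isometry of `(U, F)`: a diffeomorphism of `U` that preserves `F`. -/
def IsFinslerIsometry (U : Set V) (F : V → V → ℝ) (Φ : V → V) : Prop :=
  ∃ Ψ : V → V, MapsTo Φ U U ∧ MapsTo Ψ U U ∧ (∀ x ∈ U, Ψ (Φ x) = x) ∧ (∀ x ∈ U, Φ (Ψ x) = x) ∧
    ContDiffOn ℝ ∞ Φ U ∧ ContDiffOn ℝ ∞ Ψ U ∧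
    ∀ x ∈ U, ∀ v : V, F (Φ x) (fderiv ℝ Φ x v) = F x v

/-- `(U, F)` is homogeneous: its isometries act transitively on `U`. -/
def IsHomogeneous (U : Set V) (F : V → V → ℝ) : Prop :=
  ∀ p ∈ U, ∀ q ∈ U, ∃ Φ : V → V, IsFinslerIsometry U F Φ ∧ Φ p = q

/-- `g` has constant displacement: the distance from `x` to `g x` does not depend on `x`. -/
def HasConstantDisplacement (U : Set V) (F : V → V → ℝ) (g : V → V) : Prop :=
  ∃ d : ℝ, ∀ x ∈ U, finslerDist U F x (g x) = d

/-- `Γ` is a group of isometries of `(U, F)` acting freely and properly discontinuously on `U`, and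
`π : U → N` exhibits `(N, G)` as the quotient `Γ\(U, F)`: `π` is a smooth map from `U` onto `N`
with everywhere invertible derivative, its fibres are the `Γ`-orbits, and `G` is the induced
Finsler function, `G(dπ(v)) = F(v)`. -/
structure IsFinslerCovering (U : Set V) (F : V → V → ℝ) (N : Set W) (G : W → W → ℝ)
    (Γ : Set (V → V)) (π : V → W) : Prop where
  isometry : ∀ g ∈ Γ, IsFinslerIsometry U F g
  one_mem : (id : V → V) ∈ Γ
  mul_mem : ∀ g ∈ Γ, ∀ h ∈ Γ, g ∘ h ∈ Γ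
  inv_mem : ∀ g ∈ Γ, ∃ h ∈ Γ, g ∘ h = id ∧ h ∘ g = id
  free : ∀ g ∈ Γ, g ≠ id → ∀ x ∈ U, g x ≠ x
  properlyDiscontinuous : ∀ K ⊆ U, IsCompact K → {g ∈ Γ | (g '' K ∩ K).Nonempty}.Finite
  contDiffOn : ContDiffOn ℝ ∞ π U
  image_eq : π '' U = N
  fiber : ∀ x ∈ U, ∀ y ∈ U, (π x = π y ↔ ∃ g ∈ Γ, g x = y)
  bijective : ∀ x ∈ U, Function.Bijective (fderiv ℝ π x)
  induced : ∀ x ∈ U, ∀ v : V, G (π x) (fderiv ℝ π x v) = F x v

end Pool.Agent.H420R3
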