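import Mathlib

/-! The loop `t ↦ exp(2πit)` is not null-homotopic through loops in `ℂ \ {0}`. -/

open Set Filter Topology

namespace Pool.Agent.H420R3

/-- The loop `γ : [0,1] → ℂ` has a continuous logarithm with equal endpoint values. -/
def HasLog (γ : ℝ → ℂ) : Prop :=
  ∃ g : ℝ → ℂ, ContinuousOn g (Icc 0 1) ∧ g 0 = g 1 ∧ ∀ t ∈ Icc (0 : ℝ) 1, γ t = Complex.exp (g t)

lemma HasLog.of_near {γ γ' : ℝ → ℂ} (h : HasLog γ) (hc : ContinuousOn γ (Icc 0 1))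
    (hc' : ContinuousOn γ' (Icc 0 1)) (h01 : γ 0 = γ 1) (h01' : γ' 0 = γ' 1)
    (hne : ∀ t ∈ Icc (0 : ℝ) 1, γ t ≠ 0) (hnear : ∀ t ∈ Icc (0 : ℝ) 1, ‖γ' t - γ t‖ < ‖γ t‖) :
    HasLog γ' := by
  obtain ⟨g, hg, hg01, hgeq⟩ := h
  have hslit : ∀ t ∈ Icc (0 : ℝ) 1, γ' t / γ t ∈ Complex.slitPlane := by
    intro t ht
    have h1 : ‖γ' t / γ t - 1‖ < 1 := by
      have : γ' t / γ t - 1 = (γ' t - γ t) / γ t := by field_simp [hne t ht]
      rw [this, norm_div, div_lt_one (norm_pos_iff.mpr (hne t ht))]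
      exact hnear t ht
    left
    have h2 := Complex.abs_re_le_norm (γ' t / γ t - 1)
    rw [Complex.sub_re, Complex.one_re] at h2
    have h3 := neg_abs_le ((γ' t / γ t).re - 1)
    linarith
  refine ⟨fun t => g t + Complex.log (γ' t / γ t), ?_, ?_, ?_⟩
  · exact hg.add ((hc'.div hc hne).clog hslit)
  · simp only [hg01, h01, h01']
  · intro t ht
    have h1 : γ' t / γ t ≠ 0 := Complex.slitPlane_ne_zero (hslit t ht)
    rw [Complex.exp_add, ← hgeq t ht, Complex.exp_log h1, mul_div_cancel₀ _ (hne t ht)]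

/-- A homotopy of loops in `ℂ \ {0}` that ends at a constant loop does not start at
`t ↦ exp(2πit)`. -/
theorem not_nullhomotopic {G : ℝ × ℝ → ℂ} (hG : ContinuousOn G (Icc 0 1 ×ˢ Icc 0 1))
    (hne : ∀ p ∈ (Icc (0 : ℝ) 1) ×ˢ (Icc (0 : ℝ) 1), G p ≠ 0)
    (h01 : ∀ s ∈ Icc (0 : ℝ) 1, G (s, 0) = G (s, 1))
    (h1 : ∀ t ∈ Icc (0 : ℝ) 1, G (1, t) = G (1, 0))
    (h0 : ∀ t ∈ Icc (0 : ℝ) 1, G (0, t) = Complex.exp (2 * Real.pi * t * Complex.I)) : False := by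
  have hK : IsCompact ((Icc (0 : ℝ) 1) ×ˢ (Icc (0 : ℝ) 1)) := isCompact_Icc.prod isCompact_Icc
  have hI0 : (0 : ℝ) ∈ Icc (0 : ℝ) 1 := by simp
  have hI1 : (1 : ℝ) ∈ Icc (0 : ℝ) 1 := by simp
  -- a positive lower bound for |G|
  obtain ⟨m, hm, hmb⟩ : ∃ m > 0, ∀ p ∈ (Icc (0 : ℝ) 1) ×ˢ (Icc (0 : ℝ) 1), m ≤ ‖G p‖ := by
    obtain ⟨p, hp, hmin⟩ := hK.exists_isMinOn ⟨(0, 0), hI0, hI0⟩ hG.norm
    exact ⟨‖G p‖, norm_pos_iff.mpr (hne p hp), fun q hq => hmin hq⟩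
  -- uniform continuity
  have huc := hK.uniformContinuousOn_of_continuous hG
  rw [Metric.uniformContinuousOn_iff] at huc
  obtain ⟨δ, hδ, hδb⟩ := huc m hm
  have hslice : ∀ s ∈ Icc (0 : ℝ) 1, ContinuousOn (fun t => G (s, t)) (Icc 0 1) := by
    intro s hs
    exact hG.comp (by fun_prop) fun t ht => ⟨hs, ht⟩
  have hstep : ∀ s ∈ Icc (0 : ℝ) 1, ∀ s' ∈ Icc (0 : ℝ) 1, |s' - s| < δ →
      HasLog (fun t => G (s, t)) → HasLog (fun t => G (s', t)) := by
    intro s hs s' hs' hss h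
    refine h.of_near (hslice s hs) (hslice s' hs') (h01 s hs) (h01 s' hs')
      (fun t ht => hne _ ⟨hs, ht⟩) fun t ht => ?_
    have h2 := hδb (s', t) ⟨hs', ht⟩ (s, t) ⟨hs, ht⟩ (by
      rw [Prod.dist_eq]
      simp only [dist_self]
      rw [Real.dist_eq]
      exact max_lt hss hδ)
    rw [dist_eq_norm] at h2
    exact h2.trans_le (hmb (s, t) ⟨hs, ht⟩)
  have hall : ∀ n : ℕ, HasLog (fun t => G (max 0 (1 - n * (δ / 2)), t)) := by
    intro n
    induction n with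
    | zero =>
      simp only [Nat.cast_zero, zero_mul, sub_zero]
      rw [max_eq_right zero_le_one]
      refine ⟨fun _ => Complex.log (G (1, 0)), continuousOn_const, rfl, fun t ht => ?_⟩
      rw [Complex.exp_log (hne (1, 0) ⟨hI1, hI0⟩)]
      exact h1 t ht
    | succ n ih =>
      have hmem : ∀ k : ℕ, max 0 (1 - k * (δ / 2)) ∈ Icc (0 : ℝ) 1 := by
        intro k
        refine ⟨le_max_left _ _, max_le zero_le_one ?_⟩
        have : 0 ≤ (k : ℝ) * (δ / 2) := by positivity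
        linarith
      refine hstep _ (hmem n) _ (hmem (n + 1)) ?_ ih
      have h3 := abs_max_sub_max_le_abs (1 - ((n + 1 : ℕ) : ℝ) * (δ / 2)) (1 - n * (δ / 2)) 0
      rw [max_comm, max_comm (1 - (n : ℝ) * (δ / 2))] at h3
      refine lt_of_le_of_lt h3 ?_
      push_cast
      have : 1 - ((n : ℝ) + 1) * (δ / 2) - (1 - n * (δ / 2)) = -(δ / 2) := by ring
      rw [this, abs_neg, abs_of_pos (by positivity)]
      linarith
  have hlog0 : HasLog (fun t => G (0, t)) := by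
    obtain ⟨n, hn⟩ := exists_nat_gt (1 / (δ / 2))
    have h3 := hall n
    have h4 : 1 - (n : ℝ) * (δ / 2) ≤ 0 := by
      have := (div_lt_iff₀ (by positivity : (0 : ℝ) < δ / 2)).mp hn
      linarith
    rwa [max_eq_left h4] at h3
  obtain ⟨g, hg, hg01, hgeq⟩ := hlog0
  have hpi := Real.pi_pos
  have hint : ∀ t ∈ Icc (0 : ℝ) 1, ∃ n : ℤ, (g t).im / (2 * Real.pi) - t = n := by
    intro t ht
    have h3 := hgeq t ht
    simp only at h3
    rw [h0 t ht] at h3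
    obtain ⟨n, hn⟩ := Complex.exp_eq_exp_iff_exists_int.mp h3.symm
    refine ⟨n, ?_⟩
    rw [hn]
    simp [Complex.add_im, Complex.mul_im]
    field_simp
    ring
  have hc : ContinuousOn (fun t => (g t).im / (2 * Real.pi) - t) (Icc 0 1) :=
    ((Complex.continuous_im.comp_continuousOn hg).div_const _).sub continuousOn_id
  obtain ⟨n0, hn0⟩ := hint 0 hI0
  have hv1 : (g 1).im / (2 * Real.pi) - 1 = n0 - 1 := by
    rw [← hg01]; linarith
  have hmid : ((n0 : ℝ) - 1 / 2) ∈ (fun t => (g t).im / (2 * Real.pi) - t) '' Icc 0 1 := by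
    apply intermediate_value_Icc' zero_le_one hc
    refine ⟨?_, ?_⟩
    · simp only [hv1]; linarith
    · simp only [hn0]; linarith
  obtain ⟨t, ht, hteq⟩ := hmid
  obtain ⟨n, hn⟩ := hint t ht
  simp only at hteq
  rw [hn] at hteq
  have h5 : (2 * n : ℤ) = 2 * n0 - 1 := by
    have : (2 * (n : ℝ)) = 2 * n0 - 1 := by rw [hteq]; ring
    exact_mod_cast this
  omega

end Pool.Agent.H420R3
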