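import Pool.Agent.H420R3.Disp2
import Pool.Agent.H420R3.Winding

/-! The quotient is not homogeneous: estimates and lifting of a loop. -/

open Set Filter Topology InnerProductGeometry MeasureTheory
open scoped ContDiff RealInnerProductSpace ComplexConjugate

namespace Pool.Agent.H420R3

lemma nrm_sym {x u : C2} {ζ : ℂ} (h1 : nrm x u ζ = 8 * Real.pi)
    (h2 : nrm x (-u) (-ζ) = 8 * Real.pi) : ‖u‖ / ‖x‖ ≤ 2 * Real.pi / 3 ∧ ‖ζ‖ ≤ Real.pi := by
  have hpi := Real.pi_pos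
  unfold nrm at h1 h2
  rw [norm_neg, norm_neg, inner_neg_right] at h2
  set w := ⟪Complex.I • x, u⟫ / ‖x‖ ^ 2 with hw
  have e : -⟪Complex.I • x, u⟫ / ‖x‖ ^ 2 = -w := by rw [hw, neg_div]
  rw [e, neg_sq] at h2
  set S := √(144 * (‖u‖ ^ 2 / ‖x‖ ^ 2) + 64 * ‖ζ‖ ^ 2 + 81 * w ^ 2) with hS
  have hS1 : S = 8 * Real.pi := by linarith
  have hw0 : w = 0 := by linarith
  have hQ : 0 ≤ 144 * (‖u‖ ^ 2 / ‖x‖ ^ 2) + 64 * ‖ζ‖ ^ 2 + 81 * w ^ 2 := by positivity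
  have h3 : 144 * (‖u‖ / ‖x‖) ^ 2 + 64 * ‖ζ‖ ^ 2 = 64 * Real.pi ^ 2 := by
    have h4 : S ^ 2 = 144 * (‖u‖ ^ 2 / ‖x‖ ^ 2) + 64 * ‖ζ‖ ^ 2 + 81 * w ^ 2 := Real.sq_sqrt hQ
    rw [hS1, hw0] at h4
    rw [div_pow]; linarith
  constructor
  · apply abs_le_of_sq_le_sq' _ (by positivity) |>.2
    nlinarith [sq_nonneg ‖ζ‖]
  · apply abs_le_of_sq_le_sq' _ hpi.le |>.2
    nlinarith [sq_nonneg (‖u‖ / ‖x‖)]

lemma D_eq_zero_iff_mul {c : ℂ} {x : C2} : D c x = x + (c - 1) • P1 x := D_eq c x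

/-- Lifting a curve in the quotient: `x̃(t) = D(exp(i ϑ(t)/2)) x(t)` where `ϑ = Im Z`,
`Z' = w'/w`. -/
lemma hasDerivAt_lift {x : ℝ → C2} {x' : C2} {Z : ℝ → ℂ} {Z' : ℂ} {t : ℝ}
    (hx : HasDerivAt x x' t) (hZ : HasDerivAt Z Z' t) :
    HasDerivAt (fun t => D (Complex.exp (((Z t).im / 2 : ℝ) * Complex.I)) (x t))
      (D (Complex.exp (((Z t).im / 2 : ℝ) * Complex.I))
        (x' + ((Z'.im / 2 : ℝ) : ℂ) • (Complex.I • P1 (x t)))) t := by
  have h1 : HasDerivAt (fun t => (Z t).im) Z'.im t :=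
    Complex.imCLM.hasFDerivAt.comp_hasDerivAt t hZ
  have h2 : HasDerivAt (fun t => (((Z t).im / 2 : ℝ) : ℂ) * Complex.I)
      (((Z'.im / 2 : ℝ) : ℂ) * Complex.I) t :=
    ((h1.div_const 2).ofReal_comp).mul_const Complex.I
  have h3 := h2.cexp
  have h4 : HasDerivAt (fun t => P1 (x t)) (P1 x') t :=
    (P1.restrictScalars ℝ).hasFDerivAt.comp_hasDerivAt t hx
  have h5 := hx.add ((h3.sub_const 1).smul h4)
  have h6 : (fun t => D (Complex.exp (((Z t).im / 2 : ℝ) * Complex.I)) (x t)) = fun t =>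
      x t + (Complex.exp ((((Z t).im / 2 : ℝ) : ℂ) * Complex.I) - 1) • P1 (x t) := by
    funext t; rw [D_eq]
  rw [h6]
  refine h5.congr_deriv ?_
  apply C2_ext
  · simp only [P1_apply, WithLp.add_fst, WithLp.smul_fst, smul_eq_mul, D_fst, WithLp.toLp_fst]
    ring
  · simp only [P1_apply, WithLp.add_snd, WithLp.smul_snd, smul_eq_mul, D_snd, WithLp.toLp_snd]
    ring

/-- A curve `w` in `ℂ \ 0` is `w(0) exp Z` where `Z' = w'/w`, `Z(0) = 0`. -/
lemma eq_mul_exp {w w' Z : ℝ → ℂ} (hw : ∀ t, HasDerivAt w (w' t) t) (hw0 : ∀ t, w t ≠ 0)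
    (hZ : ∀ t, HasDerivAt Z (w' t / w t) t) (hZ0 : Z 0 = 0) (t : ℝ) :
    w t = w 0 * Complex.exp (Z t) := by
  have h1 : ∀ t, HasDerivAt (fun t => w t * Complex.exp (-Z t)) 0 t := by
    intro t
    have h2 := (hw t).mul (hZ t).neg.cexp
    refine h2.congr_deriv ?_
    have := hw0 t
    field_simp
    ring
  have h2 := is_const_of_deriv_eq_zero (fun t => (h1 t).differentiableAt) (fun t => (h1 t).deriv)
    t 0
  simp only [hZ0, neg_zero, Complex.exp_zero, mul_one] at h2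
  rw [← h2, mul_assoc, ← Complex.exp_add]
  simp

/-- Two nonzero vectors at angle less than `π` have no vanishing convex combination. -/
lemma convex_comb_ne_zero {a b : C2} (ha : a ≠ 0) (hab : angle a b < Real.pi) {s : ℝ}
    (hs : s ∈ Icc (0 : ℝ) 1) (hb : b ≠ 0) : (1 - s) • b + s • a ≠ 0 := by
  intro h
  rcases hs.1.eq_or_lt with h0 | h0
  · rw [← h0] at h; simp at h; exact hb h
  rcases hs.2.eq_or_lt with h1 | h1
  · rw [h1] at h; simp at h; exact ha h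
  have h2 : b = (-(s / (1 - s))) • a := by
    have h3 : (1 - s) • b = -(s • a) := eq_neg_of_add_eq_zero_left h
    have h4 : 1 - s ≠ 0 := by linarith
    have h5 : b = (1 - s)⁻¹ • ((1 - s) • b) := by rw [smul_smul, inv_mul_cancel₀ h4, one_smul]
    rw [h5, h3, smul_neg, smul_smul, neg_smul]
    congr 2
    field_simp
  have h6 : angle a b = Real.pi := by
    rw [angle_eq_pi_iff]
    refine ⟨ha, -(s / (1 - s)), ?_, h2⟩
    have : 0 < s / (1 - s) := div_pos h0 (by linarith)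
    linarith
  linarith

end Pool.Agent.H420R3
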