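import Pool.Agent.H420R3.NonHomog1

/-! The quotient is not homogeneous: contraction of short loops, and the conclusion. -/

open Set Filter Topology InnerProductGeometry MeasureTheory
open scoped ContDiff RealInnerProductSpace ComplexConjugate

namespace Pool.Agent.H420R3

/-- The point `(1, 0)` of `ℂ²`. -/
noncomputable def e1 : C2 := WithLp.toLp 2 (1, 0)

lemma e1_ne : e1 ≠ 0 := by
  intro h
  have : (e1.fst : ℂ) = 0 := by rw [h]; rfl
  exact one_ne_zero this

lemma D_neg_one_e1 : D (-1) e1 = -e1 := by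
  apply C2_ext <;> simp [e1]

lemma continuous_D {X : Type*} [TopologicalSpace X] {c : X → ℂ} {x : X → C2} (hc : Continuous c)
    (hx : Continuous x) : Continuous fun t => D (c t) (x t) := by
  have : (fun t => D (c t) (x t)) = fun t => x t + (c t - 1) • P1 (x t) := by
    funext t; rw [D_eq]
  rw [this]
  exact hx.add ((hc.sub continuous_const).smul (P1.continuous.comp hx))

lemma FN_eq (q v : E6) : FN q v = nrm q.1 (AN q v) (v.2 / (2 * q.2)) := by
  rw [AN_apply]; rfl

lemma FN_neg (q v : E6) : FN q (-v) = nrm q.1 (-AN q v) (-(v.2 / (2 * q.2))) := by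
  rw [FN_eq, map_neg, Prod.snd_neg, neg_div]

/-- A loop at a point over `e1`, of constant speed `8π` in both directions, can be contracted. -/
theorem contract {c c' : ℝ → E6} (hc : ∀ t, HasDerivAt c (c' t) t) (hc'c : Continuous c')
    (hdom : ∀ t, c t ∈ dom) (h1 : ∀ t, FN (c t) (c' t) = 8 * Real.pi)
    (h2 : ∀ t, FN (c t) (-c' t) = 8 * Real.pi) (hloop : c 1 = c 0) (hstart : (c 0).1 = e1) :
    ∃ K : ℝ × ℝ → E6, Continuous K ∧
      (∀ p ∈ (Icc (0 : ℝ) 1) ×ˢ (Icc (0 : ℝ) 1), K p ∈ dom) ∧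
      (∀ s ∈ Icc (0 : ℝ) 1, K (s, 0) = K (s, 1)) ∧
      (∀ t ∈ Icc (0 : ℝ) 1, K (1, t) = K (1, 0)) ∧ (∀ t ∈ Icc (0 : ℝ) 1, K (0, t) = c t) := by
  have hpi := Real.pi_pos
  have hcc : Continuous c := continuous_iff_continuousAt.mpr fun t => (hc t).continuousAt
  have hx : ∀ t, HasDerivAt (fun t => (c t).1) (c' t).1 t := fun t =>
    (ContinuousLinearMap.fst ℝ C2 ℂ).hasFDerivAt.comp_hasDerivAt t (hc t)
  have hw : ∀ t, HasDerivAt (fun t => (c t).2) (c' t).2 t := fun t =>
    (ContinuousLinearMap.snd ℝ C2 ℂ).hasFDerivAt.comp_hasDerivAt t (hc t)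
  have hrc : Continuous fun t => (c' t).2 / (c t).2 :=
    (continuous_snd.comp hc'c).div (continuous_snd.comp hcc) fun t => (hdom t).2
  -- pointwise estimates
  have hest : ∀ t, ‖AN (c t) (c' t)‖ / ‖(c t).1‖ ≤ 2 * Real.pi / 3 ∧
      ‖(c' t).2 / (c t).2‖ ≤ 2 * Real.pi := by
    intro t
    have e1 := h1 t
    have e2 := h2 t
    rw [FN_eq] at e1
    rw [FN_neg] at e2
    obtain ⟨ha, hb⟩ := nrm_sym e1 e2
    refine ⟨ha, ?_⟩
    have : (c' t).2 / (c t).2 = 2 * ((c' t).2 / (2 * (c t).2)) := by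
      have := (hdom t).2
      field_simp
    rw [this, norm_mul, Complex.norm_ofNat]
    linarith
  -- the logarithm
  obtain ⟨Z, hZ, hZ0⟩ : ∃ Z : ℝ → ℂ, (∀ t, HasDerivAt Z ((c' t).2 / (c t).2) t) ∧ Z 0 = 0 := by
    refine ⟨fun t => ∫ s in (0 : ℝ)..t, (c' s).2 / (c s).2, fun t => ?_, by simp⟩
    exact intervalIntegral.integral_hasDerivAt_right (hrc.intervalIntegrable _ _)
      (hrc.stronglyMeasurableAtFilter _ _) hrc.continuousAt
  have hZc : Continuous Z := continuous_iff_continuousAt.mpr fun t => (hZ t).continuousAt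
  have hZ1 : ‖Z 1‖ ≤ 2 * Real.pi := by
    have h3 := Convex.norm_image_sub_le_of_norm_hasDerivWithin_le (f := Z) (s := univ)
      (x := (0 : ℝ)) (y := 1) (fun t _ => (hZ t).hasDerivWithinAt) (fun t _ => (hest t).2)
      convex_univ (mem_univ _) (mem_univ _)
    simpa [hZ0] using h3
  have hweq := eq_mul_exp hw (fun t => (hdom t).2) hZ hZ0
  -- the lifted curve
  set xt : ℝ → C2 := fun t => D (Complex.exp (((Z t).im / 2 : ℝ) * Complex.I)) (c t).1 with hxt
  have hxtd : ∀ t, HasDerivAt xt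
      (D (Complex.exp (((Z t).im / 2 : ℝ) * Complex.I)) (AN (c t) (c' t))) t := by
    intro t
    have := hasDerivAt_lift (hx t) (hZ t)
    rw [AN_apply]
    exact this
  have hxt0 : ∀ t, xt t ≠ 0 := fun t => D_ne_zero (Complex.exp_ne_zero _) (hdom t).1
  have hxtc : Continuous xt := continuous_iff_continuousAt.mpr fun t => (hxtd t).continuousAt
  have hang : ∀ t ∈ Icc (0 : ℝ) 1, angle (xt 0) (xt t) ≤ 2 * Real.pi / 3 := by
    intro t ht
    have h3 := angle_le_of_deriv (z := xt)
      (z' := fun t => D (Complex.exp (((Z t).im / 2 : ℝ) * Complex.I)) (AN (c t) (c' t)))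
      (B := fun t => 2 * Real.pi / 3 * t) (B' := fun _ => 2 * Real.pi / 3)
      (fun t _ => (hxtd t).hasDerivWithinAt) (fun t _ => hxt0 t) (by fun_prop)
      (fun t _ => by
        simpa using ((hasDerivAt_id t).const_mul (2 * Real.pi / 3)).hasDerivWithinAt)
      (fun t _ => by
        rw [hxt, norm_D (Complex.norm_exp_ofReal_mul_I _), norm_D (Complex.norm_exp_ofReal_mul_I _)]
        exact (hest t).1) t ht
    have h4 : 2 * Real.pi / 3 * t ≤ 2 * Real.pi / 3 * 1 := by
      apply mul_le_mul_of_nonneg_left ht.2 (by positivity)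
    simp only [mul_zero, sub_zero] at h3
    linarith
  have hxt00 : xt 0 = e1 := by
    simp only [hxt, hZ0, hstart]
    simp [D_one]
  -- the winding number vanishes
  have hZ1' : Z 1 = 0 := by
    have h3 := hweq 1
    simp only [hloop] at h3
    have h4 : Complex.exp (Z 1) = 1 := by
      have h5 : (c 0).2 * Complex.exp (Z 1) = (c 0).2 * 1 := by rw [mul_one]; exact h3.symm
      exact mul_left_cancel₀ (hdom 0).2 h5
    obtain ⟨n, hn⟩ := Complex.exp_eq_one_iff.mp h4
    have h5 : ‖Z 1‖ = |(n : ℝ)| * (2 * Real.pi) := by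
      rw [hn, norm_mul, norm_mul, norm_mul, Complex.norm_I, Complex.norm_intCast,
        Complex.norm_ofNat, Complex.norm_real, Real.norm_of_nonneg hpi.le]
      ring
    have h6 : |(n : ℝ)| ≤ 1 := by
      rw [h5] at hZ1
      have : |(n : ℝ)| * (2 * Real.pi) ≤ 1 * (2 * Real.pi) := by linarith
      exact le_of_mul_le_mul_right this (by positivity)
    have h7 : |n| ≤ 1 := by exact_mod_cast h6
    by_cases hn0 : n = 0
    · rw [hn, hn0]; simp
    · exfalso
      have h8 : n = 1 ∨ n = -1 := by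
        rcases abs_le.mp h7 with ⟨ha, hb⟩
        omega
      have h9 : Complex.exp (((Z 1).im / 2 : ℝ) * Complex.I) = -1 := by
        rcases h8 with h8 | h8
        · have : (Z 1).im / 2 = Real.pi := by
            rw [hn, h8]; simp
          rw [this, Complex.exp_pi_mul_I]
        · have : (Z 1).im / 2 = -Real.pi := by
            rw [hn, h8]; simp; ring
          rw [this, Complex.ofReal_neg, neg_mul, Complex.exp_neg, Complex.exp_pi_mul_I]
          norm_num
      have h10 : xt 1 = -e1 := by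
        simp only [hxt]
        rw [h9, hloop, hstart, D_neg_one_e1]
      have h11 := hang 1 (by simp)
      rw [hxt00, h10, angle_self_neg_of_nonzero e1_ne] at h11
      linarith
  have hxt1 : xt 1 = e1 := by
    simp only [hxt, hZ1', hloop, hstart]
    simp [D_one]
  -- the homotopy
  refine ⟨fun p => (D (Complex.exp ((-((1 - p.1) * ((Z p.2).im / 2)) : ℝ) * Complex.I))
    ((1 - p.1) • xt p.2 + p.1 • e1), (c 0).2 * Complex.exp ((1 - p.1 : ℝ) * Z p.2)),
    ?_, ?_, ?_, ?_, ?_⟩
  · have hZ2 : Continuous fun p : ℝ × ℝ => Z p.2 := hZc.comp continuous_snd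
    have hxt2 : Continuous fun p : ℝ × ℝ => xt p.2 := hxtc.comp continuous_snd
    have hs : Continuous fun p : ℝ × ℝ => (1 - p.1 : ℝ) := continuous_const.sub continuous_fst
    refine Continuous.prodMk (continuous_D ?_ ?_) ?_
    · refine Complex.continuous_exp.comp (Continuous.mul ?_ continuous_const)
      exact Complex.continuous_ofReal.comp
        ((hs.mul ((Complex.continuous_im.comp hZ2).div_const 2)).neg)
    · exact (hs.smul hxt2).add (continuous_fst.smul continuous_const)
    · exact continuous_const.mul (Complex.continuous_exp.comp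
        ((Complex.continuous_ofReal.comp hs).mul hZ2))
  · rintro ⟨s, t⟩ ⟨hs, ht⟩
    refine ⟨D_ne_zero (Complex.exp_ne_zero _) ?_, mul_ne_zero (hdom 0).2 (Complex.exp_ne_zero _)⟩
    have h3 := hang t ht
    rw [hxt00] at h3
    exact convex_comb_ne_zero e1_ne (by linarith) hs (hxt0 t)
  · intro s _
    simp only [hZ0, hZ1', hxt00, hxt1]
  · intro t _
    simp only [sub_self, zero_mul, neg_zero, Complex.ofReal_zero, zero_smul]
  · intro t _
    refine Prod.ext ?_ ?_
    · simp only [sub_zero, one_mul, one_smul, zero_smul, add_zero]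
      simp only [hxt, D_D, ← Complex.exp_add]
      have : (((-((Z t).im / 2) : ℝ) : ℂ) * Complex.I + (((Z t).im / 2 : ℝ) : ℂ) * Complex.I) = 0 := by
        push_cast; ring
      rw [this, Complex.exp_zero, D_one]
    · simp only [sub_zero, Complex.ofReal_one, one_mul]
      exact (hweq t).symm

/-- The quotient is not homogeneous. -/
theorem FN_not_homogeneous : ¬ IsHomogeneous dom FN := by
  intro hhom
  have hpi := Real.pi_pos
  set b0 : C2 := WithLp.toLp 2 (0, 1) with hb0
  have hb0ne : b0 ≠ 0 := by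
    intro h
    have : (b0.snd : ℂ) = 0 := by rw [h]; rfl
    exact one_ne_zero this
  have hP : P1 b0 = 0 := by
    rw [P1_apply]; apply C2_ext <;> simp [hb0]
  obtain ⟨Φ, ⟨Ψ, hΦm, hΨm, hΨΦ, hΦΨ, hΦs, hΨs, hiso⟩, hΦ0⟩ :=
    hhom (b0, 1) ⟨hb0ne, one_ne_zero⟩ (e1, 1) ⟨e1_ne, one_ne_zero⟩
  -- the short loop
  set c0 : ℝ → E6 := fun t => (b0, Complex.exp (2 * Real.pi * t * Complex.I)) with hc0
  set c0' : ℝ → E6 := fun t =>
    (0, 2 * Real.pi * Complex.I * Complex.exp (2 * Real.pi * t * Complex.I)) with hc0'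
  have hc0d : ∀ t, HasDerivAt c0 (c0' t) t := by
    intro t
    have h1 : HasDerivAt (fun t : ℝ => (2 * Real.pi * t * Complex.I : ℂ))
        (2 * Real.pi * 1 * Complex.I) t :=
      (((Complex.ofRealCLM.hasDerivAt (x := t)).const_mul (2 * (Real.pi : ℂ))).mul_const
        Complex.I)
    have h2 := h1.cexp
    have h3 := (hasDerivAt_const t b0).prodMk h2
    refine h3.congr_deriv (Prod.ext rfl ?_)
    simp only [hc0']
    ring
  have hc0s : ContDiff ℝ ∞ c0 := by
    refine contDiff_const.prodMk (ContDiff.cexp ?_)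
    exact (contDiff_const.mul Complex.ofRealCLM.contDiff).mul contDiff_const
  have hc0m : ∀ t, c0 t ∈ dom := fun t => ⟨hb0ne, Complex.exp_ne_zero _⟩
  have hF : ∀ t, FN (c0 t) (c0' t) = 8 * Real.pi ∧ FN (c0 t) (-c0' t) = 8 * Real.pi := by
    intro t
    have hE : Complex.exp (2 * Real.pi * t * Complex.I) ≠ 0 := Complex.exp_ne_zero _
    have h3 : AN (c0 t) (c0' t) = 0 := by
      rw [AN_apply]; simp [hc0, hc0', hP]
    have h4 : (c0' t).2 / (2 * (c0 t).2) = Real.pi * Complex.I := by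
      simp only [hc0, hc0']; field_simp
    have h5 : ‖(Real.pi : ℂ) * Complex.I‖ ^ 2 = Real.pi ^ 2 := by simp
    have h6 : √(64 * Real.pi ^ 2) = 8 * Real.pi := by
      rw [show 64 * Real.pi ^ 2 = (8 * Real.pi) ^ 2 by ring, Real.sqrt_sq (by positivity)]
    constructor
    · rw [FN_eq, h3, h4, nrm, h5]
      simp [h6]
    · rw [FN_neg, h3, h4, nrm, norm_neg, norm_neg, h5]
      simp [h6]
  -- its image
  have hΦd : ∀ t, DifferentiableAt ℝ Φ (c0 t) := fun t =>
    (hΦs.contDiffAt (isOpen_dom.mem_nhds (hc0m t))).differentiableAt (by simp)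
  have hcd : ∀ t, HasDerivAt (fun t => Φ (c0 t)) (fderiv ℝ Φ (c0 t) (c0' t)) t := fun t =>
    (hΦd t).hasFDerivAt.comp_hasDerivAt t (hc0d t)
  have hcs : ContDiff ℝ ∞ (fun t => Φ (c0 t)) := hΦs.comp_contDiff hc0s hc0m
  have hc'c : Continuous (fun t => fderiv ℝ Φ (c0 t) (c0' t)) := by
    have h3 : (fun t => fderiv ℝ Φ (c0 t) (c0' t)) = deriv (fun t => Φ (c0 t)) := by
      funext t; exact (hcd t).deriv.symm
    rw [h3]
    exact hcs.continuous_deriv (by simp)
  have hc01 : c0 1 = c0 0 := by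
    simp only [hc0]
    refine Prod.ext rfl ?_
    simp [Complex.exp_two_pi_mul_I]
  have hc00 : c0 0 = (b0, 1) := by simp [hc0]
  obtain ⟨K, hKc, hKm, hK1, hK2, hK3⟩ := contract hcd hc'c (fun t => hΦm (hc0m t))
    (fun t => by rw [hiso _ (hc0m t)]; exact (hF t).1)
    (fun t => by rw [← map_neg, hiso _ (hc0m t)]; exact (hF t).2)
    (by rw [hc01]) (by rw [hc00, hΦ0])
  refine not_nullhomotopic (G := fun p => (Ψ (K p)).2) ?_ ?_ ?_ ?_ ?_
  · exact continuous_snd.comp_continuousOn
      (hΨs.continuousOn.comp hKc.continuousOn fun p hp => hKm p hp)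
  · intro p hp; exact (hΨm (hKm p hp)).2
  · intro s hs; simp only [hK1 s hs]
  · intro t ht; simp only [hK2 t ht]
  · intro t ht
    simp only [hK3 t ht, hΨΦ _ (hc0m t)]
    rfl

end Pool.Agent.H420R3
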