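import Pool.Agent.H420R3.FinslerDefs

/-! A Randers metric is a Finsler metric. -/

open Set Filter Topology
open scoped ContDiff

namespace Pool.Agent.H420R3

variable {V : Type} [NormedAddCommGroup V] [NormedSpace ℝ V]

/-- The Hessian quadratic form is the second derivative along lines. -/
lemma hasDerivAt_deriv_line {g : V → ℝ} {v : V} (w : V) (hg : ContDiffAt ℝ 2 g v) :
    HasDerivAt (fun t : ℝ => deriv (fun s : ℝ => g (v + s • w)) t)
      (fderiv ℝ (fderiv ℝ g) v w w) 0 := by
  have hline : ∀ t : ℝ, HasDerivAt (fun s : ℝ => v + s • w) w t := fun t => by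
    simpa using ((hasDerivAt_id t).smul_const w).const_add v
  have hcont : Tendsto (fun t : ℝ => v + t • w) (𝓝 0) (𝓝 v) := by
    have : Continuous fun t : ℝ => v + t • w := by fun_prop
    simpa using this.tendsto 0
  have hdiff : ∀ᶠ u in 𝓝 v, DifferentiableAt ℝ g u := by
    have h1 := hg.eventually (by simp)
    filter_upwards [h1] with u hu
    exact hu.differentiableAt (by norm_num)
  have hev : ∀ᶠ t : ℝ in 𝓝 0, deriv (fun s : ℝ => g (v + s • w)) t
      = fderiv ℝ g (v + t • w) w := by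
    filter_upwards [hcont.eventually hdiff] with t ht
    exact (ht.hasFDerivAt.comp_hasDerivAt t (hline t)).deriv
  have h2 : DifferentiableAt ℝ (fderiv ℝ g) v := by
    have : ContDiffAt ℝ 1 (fderiv ℝ g) v := hg.fderiv_right (by norm_num)
    exact this.differentiableAt (by norm_num)
  have h3 : HasDerivAt (fun t : ℝ => fderiv ℝ g (v + t • w)) (fderiv ℝ (fderiv ℝ g) v w) 0 := by
    have h4 : HasFDerivAt (fderiv ℝ g) (fderiv ℝ (fderiv ℝ g) v) (v + (0 : ℝ) • w) := by
      simpa using h2.hasFDerivAt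
    exact h4.comp_hasDerivAt 0 (hline 0)
  have h5 : HasDerivAt (fun t : ℝ => fderiv ℝ g (v + t • w) w)
      (fderiv ℝ (fderiv ℝ g) v w w) 0 := by
    simpa using h3.clm_apply (hasDerivAt_const (0 : ℝ) w)
  exact h5.congr_of_eventuallyEq hev

section

variable {a : V →L[ℝ] V →L[ℝ] ℝ} {b : V →L[ℝ] ℝ}

lemma randers_pos (hb : ∀ v : V, v ≠ 0 → |b v| < √(a v v)) {v : V} (hv : v ≠ 0) :
    0 < √(a v v) + b v := by
  have := hb v hv
  have := neg_abs_le (b v)
  linarith

lemma randers_contDiffAt (ha : ∀ v : V, v ≠ 0 → 0 < a v v) {v : V} (hv : v ≠ 0) (n : ℕ∞) :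
    ContDiffAt ℝ n (fun u : V => (√(a u u) + b u) ^ 2) v := by
  have h1 : ContDiffAt ℝ n (fun u : V => a u u) v :=
    (a.contDiff.contDiffAt).clm_apply contDiffAt_id
  have h2 : ContDiffAt ℝ n (fun u : V => √(a u u)) v := h1.sqrt (ha v hv).ne'
  exact (h2.add b.contDiff.contDiffAt).pow 2

/-- Strong convexity of a Randers norm. -/
lemma randers_convex (hs : ∀ v w : V, a v w = a w v) (ha : ∀ v : V, v ≠ 0 → 0 < a v v)
    (hb : ∀ v : V, v ≠ 0 → |b v| < √(a v v)) {v w : V} (hv : v ≠ 0) (hw : w ≠ 0) :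
    0 < fderiv ℝ (fderiv ℝ (fun u : V => (√(a u u) + b u) ^ 2)) v w w := by
  set P : ℝ → ℝ := fun t => a v v + 2 * t * a v w + t ^ 2 * a w w with hP
  have hPeq : ∀ t : ℝ, a (v + t • w) (v + t • w) = P t := by
    intro t
    simp only [map_add, map_smul, add_apply, smul_apply,
      smul_eq_mul, hP]
    rw [hs w v]; ring
  have hP0 : P 0 = a v v := by simp [hP]
  have hP0pos : 0 < P 0 := by rw [hP0]; exact ha v hv
  have hPd : ∀ t : ℝ, HasDerivAt P (2 * a v w + 2 * t * a w w) t := by
    intro t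
    have h1 : HasDerivAt (fun t : ℝ => a v v + 2 * t * a v w + t ^ 2 * a w w)
        (0 + 2 * 1 * a v w + 2 * t ^ 1 * a w w) t := by
      have e1 : HasDerivAt (fun t : ℝ => 2 * t * a v w) (2 * 1 * a v w) t :=
        ((hasDerivAt_id t).const_mul 2).mul_const _
      have e2 : HasDerivAt (fun t : ℝ => t ^ 2 * a w w) (2 * t ^ 1 * a w w) t := by
        simpa using (hasDerivAt_pow 2 t).mul_const (a w w)
      exact ((hasDerivAt_const t (a v v)).add e1).add e2
    convert h1 using 1; ring
  have hPcont : Continuous P := by fun_prop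
  have hPev : ∀ᶠ t in 𝓝 (0 : ℝ), 0 < P t :=
    hPcont.continuousAt.eventually (lt_mem_nhds hP0pos)
  -- the function along the line
  have hline : (fun s : ℝ => (√(a (v + s • w) (v + s • w)) + b (v + s • w)) ^ 2)
      = fun s : ℝ => (√(P s) + (b v + s * b w)) ^ 2 := by
    funext s; rw [hPeq s]; simp
  have hd1 : ∀ t : ℝ, 0 < P t → HasDerivAt (fun s : ℝ => √(P s) + (b v + s * b w))
      ((a v w + t * a w w) / √(P t) + b w) t := by
    intro t ht
    have e1 := (hPd t).sqrt ht.ne'
    have e2 : HasDerivAt (fun s : ℝ => b v + s * b w) (b w) t := by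
      simpa using ((hasDerivAt_id t).mul_const (b w)).const_add (b v)
    have e3 := e1.add e2
    have h0 : √(P t) ≠ 0 := (Real.sqrt_pos.mpr ht).ne'
    have h1 : (a v w + t * a w w) / √(P t) + b w
        = (2 * a v w + 2 * t * a w w) / (2 * √(P t)) + b w := by
      congr 1
      rw [div_eq_div_iff h0 (mul_ne_zero two_ne_zero h0)]
      ring
    rw [h1]
    exact e3
  have hd2 : ∀ t : ℝ, 0 < P t → deriv (fun s : ℝ => (√(P s) + (b v + s * b w)) ^ 2) t
      = 2 * (√(P t) + (b v + t * b w)) * ((a v w + t * a w w) / √(P t) + b w) := by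
    intro t ht
    have := (hd1 t ht).fun_pow 2
    rw [HasDerivAt.deriv this]
    norm_num
  have hd3 : HasDerivAt (fun t : ℝ => deriv (fun s : ℝ => (√(P s) + (b v + s * b w)) ^ 2) t)
      (2 * ((a v w / √(P 0) + b w) * (a v w / √(P 0) + b w)
        + (√(P 0) + b v) * ((a w w * P 0 - a v w ^ 2) / (P 0 * √(P 0))))) 0 := by
    have hsq : √(P 0) ≠ 0 := (Real.sqrt_pos.mpr hP0pos).ne'
    have hsq2 : √(P 0) ^ 2 = P 0 := Real.sq_sqrt hP0pos.le
    have e1 := hd1 0 hP0pos
    have e2 : HasDerivAt (fun t : ℝ => a v w + t * a w w) (a w w) 0 := by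
      simpa using ((hasDerivAt_id (0 : ℝ)).mul_const (a w w)).const_add (a v w)
    have e3 := (hPd 0).sqrt hP0pos.ne'
    have e4 := (e2.div e3 hsq).add_const (b w)
    have e5 := (e1.mul e4).const_mul 2
    have e6 : HasDerivAt (fun t : ℝ =>
        2 * ((√(P t) + (b v + t * b w)) * ((a v w + t * a w w) / √(P t) + b w)))
        (2 * ((a v w / √(P 0) + b w) * (a v w / √(P 0) + b w)
        + (√(P 0) + b v) * ((a w w * P 0 - a v w ^ 2) / (P 0 * √(P 0))))) 0 := by
      have h7 : (a w w * √(P 0) - (a v w + 0 * a w w) *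
          ((2 * a v w + 2 * 0 * a w w) / (2 * √(P 0)))) /
          √(P 0) ^ 2 = (a w w * P 0 - a v w ^ 2) / (P 0 * √(P 0)) := by
        rw [hsq2]
        have : a w w * √(P 0) - (a v w + 0 * a w w) *
            ((2 * a v w + 2 * 0 * a w w) / (2 * √(P 0)))
            = (a w w * P 0 - a v w ^ 2) / √(P 0) := by
          rw [eq_div_iff hsq, sub_mul, mul_assoc, ← sq, hsq2]
          field_simp
          ring
        rw [this, div_div, mul_comm (√(P 0))]
      refine e5.congr_deriv ?_
      rw [h7]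
      simp only [Pi.div_apply]
      ring
    refine e6.congr_of_eventuallyEq ?_
    filter_upwards [hPev] with t ht
    rw [hd2 t ht]; ring
  have hd4 := hasDerivAt_deriv_line w
    (randers_contDiffAt (a := a) (b := b) ha hv 2 : ContDiffAt ℝ 2 _ v)
  simp only [hline] at hd4
  rw [hd4.unique hd3]
  have hsq : 0 < √(P 0) := Real.sqrt_pos.mpr hP0pos
  have hsq2 : √(P 0) ^ 2 = P 0 := Real.sq_sqrt hP0pos.le
  have hF : 0 < √(P 0) + b v := by rw [hP0]; exact randers_pos hb hv
  -- Cauchy-Schwarz with equality case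
  set c : ℝ := a v w / a v v with hc
  have hav := ha v hv
  have hCS : a (w - c • v) (w - c • v) = (a w w * a v v - a v w ^ 2) / a v v := by
    simp only [map_sub, map_smul, sub_apply, smul_apply,
      smul_eq_mul]
    rw [hs w v, hc]; field_simp; ring
  by_cases h0 : w - c • v = 0
  · have hw' : w = c • v := sub_eq_zero.mp h0
    have hc0 : c ≠ 0 := by
      rintro h; apply hw; rw [hw', h, zero_smul]
    have h1 : a v w / √(P 0) + b w = c * (√(P 0) + b v) := by
      have e1 : a v w = c * P 0 := by rw [hw', map_smul, smul_eq_mul, hP0]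
      have e2 : b w = c * b v := by rw [hw', map_smul, smul_eq_mul]
      rw [e1, e2, mul_div_assoc, show P 0 / √(P 0) = √(P 0) from Real.div_sqrt]; ring
    have h2 : a w w * P 0 - a v w ^ 2 = 0 := by
      rw [h0] at hCS
      simp only [map_zero] at hCS
      have := hCS.symm
      rw [div_eq_zero_iff] at this
      rcases this with h | h
      · rw [hP0]; exact h
      · exact absurd h hav.ne'
    rw [h1, h2]
    simp only [zero_div, mul_zero, add_zero]
    have : c * (√(P 0) + b v) ≠ 0 := mul_ne_zero hc0 hF.ne'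
    exact mul_pos two_pos (mul_self_pos.mpr this)
  · have h1 := ha _ h0
    rw [hCS] at h1
    have h2 : 0 < a w w * P 0 - a v w ^ 2 := by
      rw [hP0]
      rcases div_pos_iff.mp h1 with h | h
      · exact h.1
      · exact absurd h.2 (not_lt.mpr hav.le)
    have h3 : 0 ≤ (a v w / √(P 0) + b w) * (a v w / √(P 0) + b w) := mul_self_nonneg _
    have h4 : 0 < (√(P 0) + b v) * ((a w w * P 0 - a v w ^ 2) / (P 0 * √(P 0))) := by positivity
    linarith

end

/-- A Randers metric on a connected open set is a Finsler metric. -/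
theorem IsRanders.isFinsler {U : Set V} {F : V → V → ℝ} (hU : IsOpen U) (hc : IsConnected U)
    (hF : IsRanders U F) : IsFinsler U F := by
  obtain ⟨a, b, ha, hb, hsymm, hpos, hlt, hFeq⟩ := hF
  have ha' : ContDiffOn ℝ ∞ (fun p : V × V => a p.1 p.2 p.2) (U ×ˢ univ) := by
    have h1 : ContDiffOn ℝ ∞ (fun p : V × V => a p.1) (U ×ˢ univ) :=
      ha.comp contDiff_fst.contDiffOn fun p hp => hp.1
    exact (h1.clm_apply contDiff_snd.contDiffOn).clm_apply contDiff_snd.contDiffOn
  have hb' : ContDiffOn ℝ ∞ (fun p : V × V => b p.1 p.2) (U ×ˢ univ) := by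
    have h1 : ContDiffOn ℝ ∞ (fun p : V × V => b p.1) (U ×ˢ univ) :=
      hb.comp contDiff_fst.contDiffOn fun p hp => hp.1
    exact h1.clm_apply contDiff_snd.contDiffOn
  refine ⟨hU, hc, ?_, ?_, ?_, ?_, ?_⟩
  · have : ContinuousOn (fun p : V × V => √(a p.1 p.2 p.2) + b p.1 p.2) (U ×ˢ univ) :=
      (Real.continuous_sqrt.comp_continuousOn ha'.continuousOn).add hb'.continuousOn
    exact this.congr fun p hp => hFeq p.1 hp.1 p.2
  · have hsub : U ×ˢ ({0}ᶜ : Set V) ⊆ U ×ˢ univ := prod_mono_right (subset_univ _)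
    have : ContDiffOn ℝ ∞ (fun p : V × V => √(a p.1 p.2 p.2) + b p.1 p.2) (U ×ˢ {0}ᶜ) :=
      ((ha'.mono hsub).sqrt fun p hp => (hpos p.1 hp.1 p.2 hp.2).ne').add (hb'.mono hsub)
    exact this.congr fun p hp => hFeq p.1 hp.1 p.2
  · intro x hx v
    rw [hFeq x hx v]
    by_cases hv : v = 0
    · simp [hv]
    · exact (randers_pos (hlt x hx) hv).le
  · intro x hx v c hcpos
    rw [hFeq x hx, hFeq x hx]
    simp only [map_smul, smul_apply, smul_eq_mul]
    have : c * (c * a x v v) = c ^ 2 * a x v v := by ring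
    rw [this, Real.sqrt_mul (sq_nonneg c), Real.sqrt_sq hcpos.le]; ring
  · intro x hx v hv w hw
    have : (fun u : V => F x u ^ 2) = fun u : V => (√(a x u u) + b x u) ^ 2 := by
      funext u; rw [hFeq x hx u]
    rw [this]
    exact randers_convex (hsymm x hx) (hpos x hx) (hlt x hx) hv hw

end Pool.Agent.H420R3
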